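import Mathlib

/-!
# The numerical comparison near `t = 0`
-/

set_option autoImplicit false

namespace Pool.Agent.Lib.MP_0430e4_lc.LPX

theorem near_half_ub {t : ℝ} (h1 : t < 1) :
    Real.binEntropy t ≤ t * Real.log (1 / t) + t := by
  have h2 : Real.log (1 - t)⁻¹ ≤ (1 - t)⁻¹ - 1 :=
    Real.log_le_sub_one_of_pos (inv_pos.2 (by linarith))
  have h3 : (1 - t) * Real.log (1 - t)⁻¹ ≤ (1 - t) * ((1 - t)⁻¹ - 1) :=
    mul_le_mul_of_nonneg_left h2 (by linarith)
  have h4 : (1 - t) * ((1 - t)⁻¹ - 1) = t := by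
    have : (1 - t) ≠ 0 := by linarith
    field_simp
    ring
  unfold Real.binEntropy
  rw [one_div]
  linarith

theorem near_half_lb {x : ℝ} (h0 : 0 < x) (h1 : x < 1) :
    x * Real.log (1 / x) ≤ Real.binEntropy x := by
  have h2 : 0 ≤ Real.log (1 - x)⁻¹ := Real.log_nonneg (by
    rw [one_le_inv₀ (by linarith)]; linarith)
  unfold Real.binEntropy
  rw [one_div]
  have := mul_nonneg (show 0 ≤ 1 - x by linarith) h2
  linarith

/-- `κ = 2.2 τ`: `4 + 4.84 < 13 log 2 = 9.01`; `h(2.2 τ) ≥ 2 h(τ)` for small `τ`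
(`x log (1/x) ≤ h(x) ≤ x log (1/x) + x`). -/
theorem near_half : ∃ t₀ : ℝ, 0 < t₀ ∧ t₀ ≤ 1 / 10 ∧ ∀ t : ℝ, 0 < t → t < t₀ →
    Real.binEntropy t - 13 * Real.log 2 * t ^ 2
      ≤ min (Real.binEntropy t + 2 * t * Real.log (1 - 2 * t) - (11 / 5 * t) ^ 2
          - (11 / 5 * t) ^ 3) (Real.binEntropy (11 / 5 * t) / 2) := by
  have hl2 := Real.log_two_gt_d9
  have hl2' := Real.log_two_lt_d9
  have hexp : Real.exp (-20) ≤ 1 / 1296 := by
    have h1 : (6 : ℝ) ≤ Real.exp 5 := by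
      have := Real.add_one_le_exp (5 : ℝ)
      linarith
    have h2 : Real.exp 20 = Real.exp 5 ^ 4 := by
      rw [← Real.exp_nat_mul]; norm_num
    have h3 : (1296 : ℝ) ≤ Real.exp 20 := by
      rw [h2]
      calc (1296 : ℝ) = 6 ^ 4 := by norm_num
        _ ≤ Real.exp 5 ^ 4 := pow_le_pow_left₀ (by norm_num) h1 4
    rw [Real.exp_neg, one_div]
    exact inv_anti₀ (by norm_num) h3
  refine ⟨Real.exp (-20), Real.exp_pos _, hexp.trans (by norm_num), fun t ht0 ht1 => ?_⟩
  have ht : t < 1 / 1296 := ht1.trans_le hexp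
  refine le_min ?_ ?_
  · have h1 : -(2 * t / (1 - 2 * t)) ≤ Real.log (1 - 2 * t) := by
      have h2 := Real.log_le_sub_one_of_pos (inv_pos.2 (show 0 < 1 - 2 * t by linarith))
      rw [Real.log_inv] at h2
      have h3 : (1 - 2 * t)⁻¹ - 1 = 2 * t / (1 - 2 * t) := by
        have : (1 - 2 * t) ≠ 0 := by linarith
        field_simp
        ring
      linarith
    have h2 : 2 * t / (1 - 2 * t) ≤ 2 * t * (1 + 3 * t) := by
      rw [div_le_iff₀ (by linarith)]
      nlinarith [mul_pos ht0 ht0]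
    have h3 : 2 * t * (-(2 * t * (1 + 3 * t))) ≤ 2 * t * Real.log (1 - 2 * t) :=
      mul_le_mul_of_nonneg_left (by linarith) (by linarith)
    have h4 : 0 < t ^ 2 := by positivity
    have h5 : 2 * t * (-(2 * t * (1 + 3 * t))) - (11 / 5 * t) ^ 2 - (11 / 5 * t) ^ 3
        + 13 * Real.log 2 * t ^ 2 = t ^ 2 * (13 * Real.log 2 - 4 - 12 * t - 121 / 25
          - 1331 / 125 * t) := by ring
    have h6 : 0 ≤ 13 * Real.log 2 - 4 - 12 * t - 121 / 25 - 1331 / 125 * t := by linarith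
    have h7 := mul_nonneg h4.le h6
    linarith
  · have h1 := near_half_ub (t := t) (by linarith)
    have h2 := near_half_lb (x := 11 / 5 * t) (by linarith) (by linarith)
    have h3 : Real.log (1 / (11 / 5 * t)) = Real.log (1 / t) - Real.log (11 / 5) := by
      rw [one_div, one_div, Real.log_inv, Real.log_inv, Real.log_mul (by norm_num) ht0.ne']
      ring
    have h4 : Real.log (11 / 5) ≤ 4 / 5 := by
      have h5 : (11 / 5 : ℝ) = 2 * (11 / 10) := by norm_num
      rw [h5, Real.log_mul (by norm_num) (by norm_num)]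
      have h6 := Real.log_le_sub_one_of_pos (show (0 : ℝ) < 11 / 10 by norm_num)
      linarith
    have h5 : 20 ≤ Real.log (1 / t) := by
      rw [one_div, Real.log_inv]
      have h6 := Real.log_lt_log ht0 ht1
      rw [Real.log_exp] at h6
      linarith
    rw [h3] at h2
    have h6 : 0 ≤ t * (1 / 10 * Real.log (1 / t) - 11 / 10 * Real.log (11 / 5) - 1) :=
      mul_nonneg ht0.le (by linarith)
    have h7 : 0 ≤ 13 * Real.log 2 * t ^ 2 := by positivity
    nlinarith

end Pool.Agent.Lib.MP_0430e4_lc.LPX
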