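import Pool.Agent.Lib.MP_0430e4_lc.LPX.AS3
import Pool.Agent.Lib.MP_0430e4_lc.LPX.NEAR

/-!
# The lower bound near `δ = 1/2`
-/

set_option autoImplicit false

namespace Pool.Agent.Lib.MP_0430e4_lc.LPX

open Finset Filter Topology Polynomial
open Impr (wt lpBound)
open LPL (hat Ev NC Lf tau)

theorem tau_pos {δ : ℝ} (_h0 : 0 < δ) (h1 : δ < 1 / 2) : 0 < tau δ := by
  unfold tau
  have : Real.sqrt (δ * (1 - δ)) < 1 / 2 := by
    rw [Real.sqrt_lt' (by norm_num)]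
    nlinarith
  linarith

/-- `τ ≤ (1 - 2 δ) / 2` -/
theorem tau_le {δ : ℝ} (h0 : 0 < δ) (h1 : δ < 1 / 2) : tau δ ≤ (1 - 2 * δ) / 2 := by
  unfold tau
  have : δ ≤ Real.sqrt (δ * (1 - δ)) := by
    apply Real.le_sqrt_of_sq_le
    nlinarith
  linarith

theorem liminf_near : ∃ δ₀ : ℝ, 0 < δ₀ ∧ δ₀ < 1 / 2 ∧ ∀ δ : ℝ, δ₀ < δ → δ < 1 / 2 →
    Real.binEntropy (tau δ) / Real.log 2 - 13 * tau δ ^ 2
      ≤ liminf (fun n : ℕ => Real.logb 2 (lpBound n ⌈δ * n⌉₊) / n) atTop := by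
  obtain ⟨t0, ht0, ht1, hmain⟩ := near_half
  have hlog : 0 < Real.log 2 := Real.log_pos (by norm_num)
  refine ⟨1 / 2 - t0 / 2, by linarith, by linarith, ?_⟩
  intro δ hδ hδ2
  have h0 : 0 < δ := by linarith
  have hτ0 := tau_pos h0 hδ2
  have hτ1 := tau_le h0 hδ2
  have hτ2 : tau δ < t0 := by linarith
  have h4 : 4 * tau δ < δ := by linarith
  have h1 := liminf_ge (κ := 11 / 5 * tau δ) h0 hδ2 h4 (by linarith) (by linarith)
  refine le_trans ?_ h1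
  have h2 := hmain (tau δ) hτ0 hτ2
  rw [le_div_iff₀ hlog]
  calc (Real.binEntropy (tau δ) / Real.log 2 - 13 * tau δ ^ 2) * Real.log 2
      = Real.binEntropy (tau δ) - 13 * Real.log 2 * tau δ ^ 2 := by
        field_simp
    _ ≤ _ := h2

end Pool.Agent.Lib.MP_0430e4_lc.LPX
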