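import Pool.Agent.Lib.MP_0430e4_lc.LPX.MAIN
import Pool.Agent.Lib.MP_0430e4_lc.LPL.Asy
import Pool.Agent.Lib.MP_0430e4_lc.TensorEntropy

/-!
# The finite bound for large `n`
-/

set_option autoImplicit false

namespace Pool.Agent.Lib.MP_0430e4_lc.LPX

open Finset Filter Topology Polynomial
open Tensor (chi flp)
open Impr (wt lpBound)
open LPL (hat Ev NC Lf tau)

/-- lower bound for binomial coefficients with lower index about `a n` -/
theorem as1_choose {a η : ℝ} (ha : 0 < a) (ha1 : a < 1) (hη : 0 < η) :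
    ∀ᶠ n : ℕ in atTop, ∀ w : ℕ, a * n - 3 ≤ w → (w : ℝ) ≤ a * n →
      Real.exp (n * (Real.binEntropy a - η)) ≤ n.choose w := by
  have hcont : ContinuousAt Real.binEntropy a := Real.binEntropy_continuous.continuousAt
  obtain ⟨ρ, hρ, hρ2⟩ := Metric.continuousAt_iff.1 hcont (η / 2) (by linarith)
  have hcast : Tendsto (fun n : ℕ => (n : ℝ)) atTop atTop := tendsto_natCast_atTop_atTop
  have e1 : ∀ᶠ n : ℕ in atTop, 3 / ρ + 3 / a + 1 < (n : ℝ) := hcast.eventually_gt_atTop _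
  have e2 : ∀ᶠ n : ℕ in atTop, Real.log ((n : ℝ) + 1) ≤ η / 2 * n := by
    have h1 : Tendsto (fun x : ℝ => Real.log (x + 1) / x) atTop (𝓝 0) := by
      have h2 := (Real.isLittleO_log_id_atTop).tendsto_div_nhds_zero
      have h3 : Tendsto (fun x : ℝ => Real.log (x + 1) / (x + 1) * ((x + 1) / x)) atTop
          (𝓝 (0 * 1)) := by
        refine Tendsto.mul ?_ ?_
        · exact h2.comp (tendsto_atTop_add_const_right _ 1 tendsto_id)
        · have h4 : Tendsto (fun x : ℝ => 1 + 1 / x) atTop (𝓝 (1 + 0)) :=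
            tendsto_const_nhds.add (tendsto_const_nhds.div_atTop tendsto_id)
          rw [add_zero] at h4
          refine h4.congr' ?_
          filter_upwards [eventually_gt_atTop 0] with x hx
          field_simp
      rw [zero_mul] at h3
      refine h3.congr' ?_
      filter_upwards [eventually_gt_atTop 0] with x hx
      have : x + 1 ≠ 0 := by linarith
      field_simp
    have h5 := (h1.comp hcast).eventually (gt_mem_nhds (show (0 : ℝ) < η / 2 by linarith))
    filter_upwards [h5, hcast.eventually_gt_atTop 0] with n hn hn0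
    rw [Function.comp_apply, div_lt_iff₀ hn0] at hn
    exact hn.le
  filter_upwards [e1, e2] with n hn1 hn2 w hw1 hw2
  have h3ρ : 0 < 3 / ρ := by positivity
  have h3a : 0 < 3 / a := by positivity
  have hn0 : (0 : ℝ) < n := by linarith
  have hw0 : (0 : ℝ) < w := by
    have : 3 < a * n := by
      have : 3 / a < n := by linarith
      rw [div_lt_iff₀ ha] at this
      linarith
    linarith
  have hwn : (w : ℝ) < n := by nlinarith
  have hw0' : 0 < w := by exact_mod_cast hw0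
  have hwn' : w < n := by exact_mod_cast hwn
  have h1 := Tensor.entropy_le_log_choose hw0' hwn'
  have h2 : dist ((w : ℝ) / n) a < ρ := by
    rw [Real.dist_eq, abs_lt]
    have h3 : 3 < ρ * n := by
      have : 3 / ρ < n := by linarith
      rw [div_lt_iff₀ hρ] at this
      linarith
    constructor
    · rw [lt_sub_iff_add_lt, lt_div_iff₀ hn0]
      linarith
    · have : (w : ℝ) / n ≤ a := by rw [div_le_iff₀ hn0]; exact hw2
      linarith
  have h3 := hρ2 h2
  rw [Real.dist_eq, abs_lt] at h3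
  have hch : (0 : ℝ) < n.choose w := by exact_mod_cast Nat.choose_pos hwn'.le
  rw [← Real.le_log_iff_exp_le hch]
  have h4 : (n : ℝ) * (Real.binEntropy a - η / 2) ≤ n * Real.binEntropy (w / n) :=
    mul_le_mul_of_nonneg_left (by linarith [h3.1]) hn0.le
  have h5 : (n : ℝ) * (Real.binEntropy a - η) = n * (Real.binEntropy a - η / 2) - η / 2 * n := by
    ring
  linarith

theorem as1_poly {η : ℝ} (hη : 0 < η) :
    ∀ᶠ n : ℕ in atTop, 64 * ((n : ℝ) + 1) ^ 2 ≤ Real.exp (n * η) := by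
  have hcast : Tendsto (fun n : ℕ => (n : ℝ)) atTop atTop := tendsto_natCast_atTop_atTop
  have h1 := Real.tendsto_pow_mul_exp_neg_atTop_nhds_zero 2
  have h2 : Tendsto (fun n : ℕ => η * (n : ℝ)) atTop atTop := hcast.const_mul_atTop hη
  have h3 := (h1.comp h2).eventually (gt_mem_nhds (show (0 : ℝ) < η ^ 2 / 256 by positivity))
  filter_upwards [h3, hcast.eventually_ge_atTop 1] with n hn hn1
  have h4 : (η * n) ^ 2 * Real.exp (-(η * n)) < η ^ 2 / 256 := hn
  rw [Real.exp_neg, ← div_eq_mul_inv, div_lt_iff₀ (Real.exp_pos _)] at h4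
  have h5 : 0 < η ^ 2 := by positivity
  have h6 : (n : ℝ) ^ 2 ≤ Real.exp (η * n) / 256 := by
    by_contra h7
    have h7 := not_le.1 h7
    have h8 := mul_lt_mul_of_pos_left h7 h5
    nlinarith
  have h7 : ((n : ℝ) + 1) ^ 2 ≤ 4 * (n : ℝ) ^ 2 := by nlinarith
  rw [mul_comm (n : ℝ) η]
  linarith

/-- `T = ⌊(τ - ε) n⌋`, `2 m` = the largest even number `≤ T`, `k1 = ⌊κ n⌋`;
`Tensor.entropy_le_log_choose` -/
theorem eventually_lp {δ ε κ η : ℝ} (h0 : 0 < δ) (h1 : δ < 1 / 2) (h2 : 4 * tau δ < δ)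
    (he : 0 < ε) (he2 : ε < tau δ ^ 2 / 2) (hκ : 2 * tau δ < κ) (hκ2 : κ < 1 / 2)
    (hη : 0 < η) :
    ∀ᶠ n : ℕ in atTop, ∀ d : ℕ, Even n → Even d → δ * n ≤ d → (d : ℝ) ≤ δ * n + 3 →
      Real.exp (n * (min (Real.binEntropy (tau δ - ε) + 2 * tau δ * Real.log (1 - 2 * tau δ)
        - κ ^ 2 - κ ^ 3) (Real.binEntropy κ / 2) - η)) ≤ lpBound n d := by
  obtain ⟨h3, h4, h5⟩ := LPL.tau_facts h0 h1 h2
  have hev := LPL.eventually_NC h0 h1 h2 he he2
  set τ := tau δ with hτ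
  have hτ8 : τ < 1 / 8 := by linarith
  have ha : 0 < τ - ε := by nlinarith
  have hcast : Tendsto (fun n : ℕ => (n : ℝ)) atTop atTop := tendsto_natCast_atTop_atTop
  have hκ0 : 0 < κ := by linarith
  filter_upwards [hev, as1_choose ha (by linarith) hη, as1_choose hκ0 (by linarith) hη,
    as1_poly hη, hcast.eventually_ge_atTop (6 / τ ^ 2 + 3 / (τ - ε) + 1)]
    with n hn1 hn2 hn3 hn4 hn5 d hne hde hd1 hd2
  obtain ⟨g1, g2, k, R, hNC⟩ := hn1 d hne hde hd1 hd2
  have h6τ : 0 < 6 / τ ^ 2 := by positivity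
  have h3a : 0 < 3 / (τ - ε) := by positivity
  have hn0 : (0 : ℝ) < n := by linarith
  have hn6 : 6 ≤ τ ^ 2 * n := by
    have : 6 / τ ^ 2 ≤ n := by linarith
    rw [div_le_iff₀ (by positivity)] at this
    linarith
  have hn3' : 3 ≤ (τ - ε) * n := by
    have : 3 / (τ - ε) ≤ n := by linarith
    rw [div_le_iff₀ ha] at this
    linarith
  set T := ⌊(τ - ε) * n⌋₊ with hT
  have hT1 : (T : ℝ) ≤ (τ - ε) * n := Nat.floor_le (by positivity)
  have hT2 : (τ - ε) * n < T + 1 := Nat.lt_floor_add_one _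
  obtain ⟨m, hm⟩ : ∃ m, m = T / 2 := ⟨_, rfl⟩
  have hm1 : 2 * m ≤ T := by omega
  have hm2 : T ≤ 2 * m + 1 := by omega
  have hm1' : (2 : ℝ) * m ≤ T := by exact_mod_cast hm1
  have hm2' : (T : ℝ) ≤ 2 * m + 1 := by exact_mod_cast hm2
  have hm0 : 1 ≤ m := by
    by_contra hcon
    have : m = 0 := by omega
    rw [this] at hm2'
    push_cast at hm2'
    linarith
  set k1 := ⌊κ * n⌋₊ with hk1
  have hk1a : (k1 : ℝ) ≤ κ * n := Nat.floor_le (by positivity)
  have hk1b : κ * n < k1 + 1 := Nat.lt_floor_add_one _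
  have hk1n : 2 * k1 ≤ n := by
    have : (2 : ℝ) * k1 ≤ n := by nlinarith
    exact_mod_cast this
  have hdn : 2 * d ≤ n := hNC.hdn
  have hdn' : (0 : ℝ) ≤ n - 2 * d := by
    have : (2 : ℝ) * d ≤ n := by exact_mod_cast hdn
    linarith
  have hD0 : ((n : ℝ) - 2 * d) ^ 2 ≤ 4 * τ * (1 - τ) * n ^ 2 := by
    have : (n : ℝ) - 2 * d ≤ (1 - 2 * δ) * n := by linarith
    calc ((n : ℝ) - 2 * d) ^ 2 ≤ ((1 - 2 * δ) * n) ^ 2 := pow_le_pow_left₀ hdn' this 2
      _ = (1 - 2 * δ) ^ 2 * n ^ 2 := by ring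
      _ = 4 * τ * (1 - τ) * n ^ 2 := by rw [h3]
  have hD : ((n : ℝ) - 2 * d) ^ 2 ≤ 4 * n * (2 * m - 1) := by
    refine hD0.trans ?_
    have e1 : τ * (1 - τ) * n ≤ 2 * m - 1 := by nlinarith
    calc 4 * τ * (1 - τ) * (n : ℝ) ^ 2 = 4 * n * (τ * (1 - τ) * n) := by ring
      _ ≤ 4 * n * (2 * m - 1) := by
        exact mul_le_mul_of_nonneg_left e1 (by positivity)
  have key := lp_ge_main (k1 := k1) hNC hm0 hm1 g1 hD hk1n
  refine le_trans (le_min ?_ ?_) key
  · have f1 : Real.exp (n * (Real.binEntropy (τ - ε) - η)) ≤ n.choose (2 * m) := by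
      refine hn2 (2 * m) ?_ ?_
      · push_cast; linarith
      · push_cast; linarith
    have h12 : 0 < 1 - 2 * τ := by linarith
    have f2 : (1 - 2 * τ) ^ 2 ≤ 1 - ((n : ℝ) - 2 * d) ^ 2 / (n : ℝ) ^ 2 := by
      have : ((n : ℝ) - 2 * d) ^ 2 / (n : ℝ) ^ 2 ≤ 4 * τ * (1 - τ) := by
        rw [div_le_iff₀ (by positivity)]
        exact hD0
      nlinarith
    have hlog : Real.log (1 - 2 * τ) ≤ 0 := Real.log_nonpos h12.le (by linarith)
    have f3 : Real.exp (n * (2 * τ * Real.log (1 - 2 * τ)))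
        ≤ (1 - ((n : ℝ) - 2 * d) ^ 2 / (n : ℝ) ^ 2) ^ (2 * m) := by
      refine le_trans ?_ (pow_le_pow_left₀ (by positivity) f2 (2 * m))
      rw [← pow_mul, ← Real.exp_log h12, ← Real.exp_nat_mul, Real.log_exp]
      apply Real.exp_le_exp.2
      push_cast
      have : (2 * (2 * m) : ℝ) ≤ 2 * τ * n := by nlinarith
      have := mul_le_mul_of_nonpos_right this hlog
      linarith
    have f4 : Real.exp (n * (-(κ ^ 2) - κ ^ 3))
        ≤ Real.exp (-((k1 : ℝ) ^ 2 / n + (k1 : ℝ) ^ 3 / (n : ℝ) ^ 2)) := by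
      apply Real.exp_le_exp.2
      have i1 : (k1 : ℝ) ^ 2 / n ≤ κ ^ 2 * n := by
        rw [div_le_iff₀ hn0]
        calc (k1 : ℝ) ^ 2 ≤ (κ * n) ^ 2 := pow_le_pow_left₀ (by positivity) hk1a 2
          _ = κ ^ 2 * n * n := by ring
      have i2 : (k1 : ℝ) ^ 3 / (n : ℝ) ^ 2 ≤ κ ^ 3 * n := by
        rw [div_le_iff₀ (by positivity)]
        calc (k1 : ℝ) ^ 3 ≤ (κ * n) ^ 3 := pow_le_pow_left₀ (by positivity) hk1a 3
          _ = κ ^ 3 * n * n ^ 2 := by ring
      linarith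
    have f5 := mul_le_mul (mul_le_mul f1 f3 (Real.exp_pos _).le (Nat.cast_nonneg _)) f4
      (Real.exp_pos _).le (mul_nonneg (Nat.cast_nonneg _)
        (pow_nonneg (le_trans (by positivity) f2) _))
    refine le_trans ?_ f5
    rw [← Real.exp_add, ← Real.exp_add]
    apply Real.exp_le_exp.2
    have := mul_le_mul_of_nonneg_left (min_le_left (Real.binEntropy (τ - ε) + 2 * τ * Real.log (1 - 2 * τ)
        - κ ^ 2 - κ ^ 3) (Real.binEntropy κ / 2)) hn0.le
    linarith
  · have f1 : Real.exp (n * (Real.binEntropy κ - η)) ≤ n.choose k1 := by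
      refine hn3 k1 ?_ ?_
      · linarith
      · exact hk1a
    apply Real.le_sqrt_of_sq_le
    rw [le_div_iff₀ (by positivity), ← Real.exp_nat_mul]
    calc Real.exp ((2 : ℕ) * (n * (min (Real.binEntropy (τ - ε) + 2 * τ * Real.log (1 - 2 * τ)
        - κ ^ 2 - κ ^ 3) (Real.binEntropy κ / 2) - η))) * (64 * ((n : ℝ) + 1) ^ 2)
        ≤ Real.exp ((2 : ℕ) * (n * (Real.binEntropy κ / 2 - η))) * Real.exp (n * η) := by
          refine mul_le_mul (Real.exp_le_exp.2 ?_) hn4 (by positivity) (Real.exp_pos _).le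
          have := mul_le_mul_of_nonneg_left (min_le_right (Real.binEntropy (τ - ε) + 2 * τ * Real.log (1 - 2 * τ)
            - κ ^ 2 - κ ^ 3) (Real.binEntropy κ / 2)) hn0.le
          push_cast
          linarith
      _ = Real.exp (n * (Real.binEntropy κ - η)) := by
          rw [← Real.exp_add]
          congr 1
          push_cast
          ring
      _ ≤ n.choose k1 := f1

end Pool.Agent.Lib.MP_0430e4_lc.LPX
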