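import Pool.Agent.Lib.MP_0430e4_lc.LPX.Defs
import Pool.Agent.Lib.MP_0430e4_lc.LPL.MONO

/-!
# From even lengths and even distances to the lower limit
-/

set_option autoImplicit false

namespace Pool.Agent.Lib.MP_0430e4_lc.LPX

open Finset Filter Topology Polynomial
open Tensor (chi flp)
open Impr (wt lpBound)

theorem lp_le_two_pow (n d : ℕ) : lpBound n d ≤ 2 ^ n := by
  apply csSup_le
  · refine ⟨1, fun x => if x = (fun _ => false) then 1 else 0, by simp, ?_, ?_, ?_, by simp⟩
    · intro x
      simp only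
      split_ifs <;> norm_num
    · intro x hx _
      simp only [if_neg hx]
    · intro y
      simp only [ite_mul, one_mul, zero_mul]
      rw [Finset.sum_ite_eq' Finset.univ]
      simp [Tensor.chi_zero_left]
  · rintro s ⟨β, h1, h2, h3, h4, rfl⟩
    have e1 : ∑ y, ∑ x, β x * Tensor.chi x y = 2 ^ n := by
      rw [Finset.sum_comm]
      have : ∀ x : Fin n → Bool, ∑ y, β x * Tensor.chi x y =
          if x = (fun _ => false) then (2 : ℝ) ^ n else 0 := by
        intro x
        rw [← Finset.mul_sum, Tensor.sum_chi]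
        split_ifs with hx
        · subst hx
          simp [h1]
        · have : ∃ i, x i = true := by
            by_contra hcon
            push Not at hcon
            apply hx
            funext i
            simpa using hcon i
          obtain ⟨i, hi⟩ := this
          rw [Finset.prod_eq_zero (Finset.mem_univ i) (by simp [hi]), mul_zero]
      simp only [this]
      rw [Finset.sum_ite_eq' Finset.univ]
      simp
    have e2 : ∑ x, β x = ∑ x, β x * Tensor.chi x (fun _ => false) := by
      simp only [Tensor.chi_zero_right, mul_one]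
    rw [← e1, e2]
    exact Finset.single_le_sum (f := fun y => ∑ x, β x * Tensor.chi x y) (fun y _ => h4 y)
      (Finset.mem_univ _)

theorem exponent_le_one (δ : ℝ) (n : ℕ) : Real.logb 2 (lpBound n ⌈δ * n⌉₊) / n ≤ 1 := by
  rcases Nat.eq_zero_or_pos n with h | h
  · subst h
    simp
  · have hn0 : (0 : ℝ) < n := by exact_mod_cast h
    rw [div_le_one hn0]
    have := Real.logb_le_logb_of_le (b := 2) (by norm_num)
      (lt_of_lt_of_le one_pos (Impr.one_le_lpBound n ⌈δ * n⌉₊)) (lp_le_two_pow n ⌈δ * n⌉₊)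
    rwa [Real.logb_pow, Real.logb_self_eq_one (by norm_num), mul_one] at this

theorem exponent_nonneg (δ : ℝ) (n : ℕ) : 0 ≤ Real.logb 2 (lpBound n ⌈δ * n⌉₊) / n :=
  div_nonneg (Real.logb_nonneg (by norm_num) (Impr.one_le_lpBound _ _)) (Nat.cast_nonneg _)

theorem exponent_cobdd (δ : ℝ) : IsCoboundedUnder (· ≥ ·) atTop
    (fun n : ℕ => Real.logb 2 (lpBound n ⌈δ * n⌉₊) / n) := by
  apply IsCoboundedUnder.of_frequently_le (a := 1)
  apply Eventually.frequently
  filter_upwards with n
  exact exponent_le_one δ n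

theorem liminf_of_eventually {δ c : ℝ} (h0 : 0 < δ) (h1 : δ < 1 / 2)
    (h : ∀ᶠ n : ℕ in atTop, ∀ d : ℕ, Even n → Even d → δ * n ≤ d → (d : ℝ) ≤ δ * n + 3 →
      Real.exp (n * c) ≤ lpBound n d) :
    c / Real.log 2
      ≤ liminf (fun n : ℕ => Real.logb 2 (lpBound n ⌈δ * n⌉₊) / n) atTop := by
  have hl2 : 0 < Real.log 2 := Real.log_pos (by norm_num)
  -- the even part of `n`
  set e : ℕ → ℕ := fun n => 2 * (n / 2) with hedef
  have he_even : ∀ n, Even (e n) := fun n => even_two_mul _
  have he_le : ∀ n, e n ≤ n := fun n => Nat.mul_div_le n 2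
  have he_ge : ∀ n, n ≤ e n + 1 := fun n => by simp only [hedef]; omega
  have he_top : Tendsto e atTop atTop := by
    apply tendsto_atTop_mono (f := fun n => n - 1)
    · intro n
      have := he_ge n
      omega
    · exact tendsto_sub_atTop_nat 1
  have hNC := he_top.eventually h
  have hratio : Tendsto (fun n : ℕ => ((e n : ℕ) : ℝ) / n) atTop (𝓝 1) := by
    have a1 : Tendsto (fun n : ℕ => 1 - (1 : ℝ) / n) atTop (𝓝 (1 - 0)) :=
      tendsto_const_nhds.sub tendsto_one_div_atTop_nhds_zero_nat
    rw [sub_zero] at a1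
    refine tendsto_of_tendsto_of_tendsto_of_le_of_le' a1 tendsto_const_nhds ?_ ?_
    · filter_upwards [eventually_ge_atTop 1] with n hn
      have hn0 : (0 : ℝ) < n := by positivity
      rw [le_div_iff₀ hn0, sub_mul, one_mul, div_mul_cancel₀ _ hn0.ne']
      have : (n : ℝ) ≤ (e n : ℕ) + 1 := by exact_mod_cast he_ge n
      linarith
    · filter_upwards [eventually_ge_atTop 1] with n hn
      have hn0 : (0 : ℝ) < n := by positivity
      rw [div_le_one hn0]
      exact_mod_cast he_le n
  have hlim2 : Tendsto (fun n : ℕ => ((e n : ℕ) : ℝ) / n * (c / Real.log 2)) atTop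
      (𝓝 (c / Real.log 2)) := by
    have := hratio.mul_const (c / Real.log 2)
    rwa [one_mul] at this
  rw [← hlim2.liminf_eq]
  apply liminf_le_liminf
  · filter_upwards [hNC, eventually_ge_atTop 2] with n hn hn2
    have hn0 : (0 : ℝ) < n := by positivity
    set m := e n with hm
    -- choose the even distance
    obtain ⟨d, hde, hd1, hd2⟩ : ∃ d : ℕ, Even d ∧ ⌈δ * n⌉₊ ≤ d ∧ d ≤ ⌈δ * n⌉₊ + 1 := by
      rcases Nat.even_or_odd ⌈δ * n⌉₊ with h | h
      · exact ⟨_, h, le_rfl, Nat.le_succ _⟩
      · exact ⟨⌈δ * n⌉₊ + 1, h.add_one, Nat.le_succ _, le_rfl⟩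
    have hmn : (m : ℝ) ≤ n := by exact_mod_cast he_le n
    have hmn' : (n : ℝ) ≤ m + 1 := by exact_mod_cast he_ge n
    have hc1 : δ * m ≤ d := by
      have a1 : δ * n ≤ ⌈δ * n⌉₊ := Nat.le_ceil _
      have a2 : ((⌈δ * n⌉₊ : ℕ) : ℝ) ≤ d := by exact_mod_cast hd1
      nlinarith
    have hc2 : (d : ℝ) ≤ δ * m + 3 := by
      have a1 : ((⌈δ * n⌉₊ : ℕ) : ℝ) < δ * n + 1 := Nat.ceil_lt_add_one (by positivity)
      have a2 : (d : ℝ) ≤ ((⌈δ * n⌉₊ : ℕ) : ℝ) + 1 := by exact_mod_cast hd2
      nlinarith
    have b4 := hn d (he_even n) hde hc1 hc2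
    have b5 : Real.exp (m * c) ≤ lpBound n ⌈δ * n⌉₊ := by
      refine b4.trans ((LPL.lpBound_anti hd1).trans ?_)
      have := he_ge n
      have h' := he_le n
      rcases Nat.lt_or_ge m n with h | h
      · have hnm : n = m + 1 := by omega
        have := LPL.lpBound_mono m ⌈δ * n⌉₊
        rwa [← hnm] at this
      · have : m = n := le_antisymm h' h
        rw [this]
    have b8 := Real.logb_le_logb_of_le (b := 2) (by norm_num) (Real.exp_pos _) b5
    have b9 : Real.logb 2 (Real.exp (m * c)) = m * c / Real.log 2 := by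
      unfold Real.logb
      rw [Real.log_exp]
    rw [b9] at b8
    rw [div_mul_eq_mul_div, div_le_div_iff_of_pos_right hn0]
    rw [mul_div_assoc] at b8
    exact b8
  · exact hlim2.isBoundedUnder_ge
  · exact exponent_cobdd δ

end Pool.Agent.Lib.MP_0430e4_lc.LPX
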