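import Pool.Agent.Lib.MP_0430e4_lc.LPX.AS1
import Pool.Agent.Lib.MP_0430e4_lc.LPX.AS2
import Pool.Agent.Lib.MP_0430e4_lc.LPL.Asy

/-!
# The lower bound for the exponent
-/

set_option autoImplicit false

namespace Pool.Agent.Lib.MP_0430e4_lc.LPX

open Finset Filter Topology Polynomial
open Tensor (chi flp)
open Impr (wt lpBound)
open LPL (hat Ev NC Lf tau)

theorem liminf_ge {δ κ : ℝ} (h0 : 0 < δ) (h1 : δ < 1 / 2) (h2 : 4 * tau δ < δ)
    (hκ : 2 * tau δ < κ) (hκ2 : κ < 1 / 2) :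
    min (Real.binEntropy (tau δ) + 2 * tau δ * Real.log (1 - 2 * tau δ) - κ ^ 2 - κ ^ 3)
        (Real.binEntropy κ / 2) / Real.log 2
      ≤ liminf (fun n : ℕ => Real.logb 2 (lpBound n ⌈δ * n⌉₊) / n) atTop := by
  obtain ⟨-, h4, -⟩ := LPL.tau_facts h0 h1 h2
  have hcont : Continuous fun ε : ℝ =>
      (min (Real.binEntropy (tau δ - ε) + 2 * tau δ * Real.log (1 - 2 * tau δ)
        - κ ^ 2 - κ ^ 3) (Real.binEntropy κ / 2) - ε) / Real.log 2 := by
    have := Real.binEntropy_continuous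
    fun_prop
  have hlim := (hcont.tendsto 0).mono_left (nhdsWithin_le_nhds (s := Set.Ioi 0))
  simp only [sub_zero] at hlim
  refine le_of_tendsto hlim ?_
  have hτ : 0 < tau δ ^ 2 / 2 := by positivity
  filter_upwards [Ioo_mem_nhdsGT hτ] with ε hε
  exact liminf_of_eventually h0 h1 (eventually_lp h0 h1 h2 hε.1 hε.2 hκ hκ2 hε.1)

end Pool.Agent.Lib.MP_0430e4_lc.LPX
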