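import Pool.Agent.Lib.MP_0430e4_lc.LPX.KREV
import Pool.Agent.Lib.MP_0430e4_lc.LPL.CUB2

/-!
# Means of the characters over the even half of the cube
-/

set_option autoImplicit false

namespace Pool.Agent.Lib.MP_0430e4_lc.LPX

open Finset Filter Topology Polynomial
open Tensor (chi flp)
open Impr (wt lpBound)
open LPL (hat Ev NC Lf)

theorem van_sum_chi {n : ℕ} (y : Fin n → Bool) (hy : 0 < wt y) :
    ∑ x : Fin n → Bool, chi x y = 0 := by
  have h := LPL.hat_one y hy
  unfold hat at h
  simpa using h

theorem van_wt_zero {n : ℕ} {y : Fin n → Bool} (hy : wt y = 0) : y = fun _ => false := by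
  funext i
  unfold wt at hy
  rw [Finset.card_eq_zero] at hy
  by_contra hc
  have : i ∈ univ.filter fun i => y i = true := by
    simp only [Finset.mem_filter, Finset.mem_univ, true_and]
    simpa using hc
  rw [hy] at this
  simp at this

/-- mean of a character over the even half -/
theorem van_sum_even_chi {n : ℕ} (y : Fin n → Bool) (hy : wt y < n) :
    ∑ x : Fin n → Bool, (if Even (wt x) then chi x y else 0)
      = if wt y = 0 then (2 : ℝ) ^ n / 2 else 0 := by
  have h1 : ∀ x : Fin n → Bool, (if Even (wt x) then chi x y else 0)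
      = 1 / 2 * chi x y + 1 / 2 * chi x (fun i => !(y i)) := by
    intro x
    have e : (fun i => !(y i)) = fun i => xor (y i) ((fun _ : Fin n => true) i) := by
      funext i
      simp
    have e2 : chi x (fun i => !(y i)) = chi x y * (-1) ^ wt x := by
      rw [e, Tensor.chi_comm, Tensor.chi_xor, Tensor.chi_comm (fun _ : Fin n => true) x,
        LPL.chi_ones, Tensor.chi_comm y x]
    rw [e2]
    by_cases h : Even (wt x)
    · rw [if_pos h, h.neg_one_pow]
      ring
    · rw [if_neg h, (Nat.not_even_iff_odd.1 h).neg_one_pow]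
      ring
  simp only [h1]
  rw [Finset.sum_add_distrib, ← Finset.mul_sum, ← Finset.mul_sum,
    van_sum_chi (fun i => !(y i)) (by rw [LPL.wt_compl]; omega), mul_zero, add_zero]
  split_ifs with h
  · have e : ∀ x : Fin n → Bool, chi x y = 1 := by
      intro x
      rw [van_wt_zero h]
      exact Tensor.chi_zero_right x
    simp only [e]
    simp only [Finset.sum_const, Finset.card_univ, nsmul_eq_mul, mul_one]
    rw [Fintype.card_fun, Fintype.card_fin, Fintype.card_bool]
    push_cast
    ring
  · rw [van_sum_chi y (by omega), mul_zero]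

/-- number of words of given weight -/
theorem van_card_wt (n k : ℕ) :
    ∑ y : Fin n → Bool, (if wt y = k then (1 : ℝ) else 0) = n.choose k := by
  have h := Impr.sum_wt (α := Fin n) (fun i => if i = k then (1 : ℝ) else 0)
  unfold wt
  rw [h, Fintype.card_fin]
  by_cases hk : k < n + 1
  · rw [Finset.sum_eq_single k]
    · simp
    · intro b _ hb
      simp [hb]
    · intro hb
      exact absurd (Finset.mem_range.2 hk) hb
  · rw [Finset.sum_eq_zero]
    · rw [Nat.choose_eq_zero_of_lt (by omega)]
      simp
    · intro b hb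
      rw [if_neg (by have := Finset.mem_range.1 hb; omega), mul_zero]

theorem LY_EO {n j : ℕ} (hj : 1 ≤ j) (h : 2 * j < n) : LY n (EO n j).1 = 0 := by
  show (2 / 2 ^ n) * ∑ x : Fin n → Bool,
    (if Even (wt x) then (EO n j).1.eval (yv n (wt x)) else 0) = 0
  have h1 : ∀ x : Fin n → Bool, (if Even (wt x) then (EO n j).1.eval (yv n (wt x)) else 0)
      = ∑ y : Fin n → Bool, (if wt y = 2 * j then (if Even (wt x) then chi x y else 0) else 0) := by
    intro x
    rw [← kr_even n j x]
    split_ifs with hx
    · rfl
    · simp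
  simp only [h1]
  rw [Finset.sum_comm, Finset.sum_eq_zero, mul_zero]
  intro y _
  by_cases hy : wt y = 2 * j
  · simp only [hy, if_true]
    rw [van_sum_even_chi y (by omega), if_neg (by omega)]
  · simp [hy]

theorem LY_one {n : ℕ} (hn : 1 ≤ n) : LY n 1 = 1 := by
  have h := LPL.Lf_one hn
  rw [← h]
  show (2 / 2 ^ n) * ∑ x : Fin n → Bool, (if Even (wt x) then (1 : ℝ[X]).eval (yv n (wt x)) else 0)
    = (2 / 2 ^ n) * ∑ x : Fin n → Bool, (if Even (wt x) then (1 : ℝ[X]).eval (wt x : ℝ) else 0)
  simp

end Pool.Agent.Lib.MP_0430e4_lc.LPX
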