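import Pool.Agent.Lib.MP_0430e4_lc.LPX.Defs
import Pool.Agent.Lib.MP_0430e4_lc.LPL.CUB2

/-!
# Second order lower bound for Delsarte's linear program: the radial weight
-/

set_option autoImplicit false

namespace Pool.Agent.Lib.MP_0430e4_lc.LPX

open Finset Filter Topology Polynomial
open Tensor (chi flp)
open Impr (wt lpBound)
open LPL (hat Ev NC Lf)

private theorem mem_Ev_iff {n d a : ℕ} : a ∈ Ev n d ↔ a ≤ n ∧ Even a ∧ d ≤ a ∧ a + d ≤ n := by
  unfold LPL.Ev
  rw [mem_filter, mem_range, Nat.lt_succ_iff]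

private theorem cnt_nonneg' (n a : ℕ) : 0 ≤ cnt n a := by
  unfold cnt
  apply Finset.sum_nonneg
  intro x _
  split_ifs <;> norm_num

private theorem exists_wt' {n a : ℕ} (ha : a ≤ n) : ∃ x : Fin n → Bool, wt x = a := by
  refine ⟨fun i => decide ((i : ℕ) < a), ?_⟩
  unfold Impr.wt
  have h1 : (univ.filter fun i : Fin n => decide ((i : ℕ) < a) = true)
      = univ.filter fun i : Fin n => (i : ℕ) < a := by
    ext i
    simp
  rw [h1, Fin.card_filter_val_lt]
  exact min_eq_right ha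

private theorem cnt_pos' {n a : ℕ} (ha : a ≤ n) : 0 < cnt n a := by
  obtain ⟨x, hx⟩ := exists_wt' ha
  unfold cnt
  apply Finset.sum_pos'
  · intro y _
    split_ifs <;> norm_num
  · exact ⟨x, mem_univ x, by rw [hx]; simp⟩

private theorem yv_inj {n a b : ℕ} (ha : a ≤ n) (h : yv n a = yv n b) : b = a ∨ b = n - a := by
  unfold yv at h
  rcases sq_eq_sq_iff_eq_or_eq_neg.mp h with h1 | h1
  · left
    have : (a : ℝ) = b := by linarith
    exact_mod_cast this.symm
  · right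
    have h2 : (a : ℝ) + b = n := by linarith
    have h3 : a + b = n := by exact_mod_cast h2
    omega

private theorem yv_compl {n a : ℕ} (ha : a ≤ n) : yv n (n - a) = yv n a := by
  unfold yv
  rw [Nat.cast_sub ha]
  ring

private theorem mem_Ev_compl {n d a : ℕ} (hn : Even n) (h : a ∈ Ev n d) : n - a ∈ Ev n d := by
  rw [mem_Ev_iff] at h ⊢
  obtain ⟨h1, h2, h3, h4⟩ := h
  refine ⟨by omega, ?_, by omega, by omega⟩
  exact (Nat.even_sub h1).mpr (by simp [hn, h2])

private theorem mem_Ev_of_yv {n d a b : ℕ} (hn : Even n) (h : a ∈ Ev n d)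
    (hy : yv n a = yv n b) : b ∈ Ev n d := by
  rcases yv_inj (mem_Ev_iff.mp h).1 hy with h1 | h1
  · rw [h1]; exact h
  · rw [h1]; exact mem_Ev_compl hn h

private theorem cnt_congr {n a b : ℕ} (h : yv n a = yv n b) : cnt n a = cnt n b := by
  unfold cnt
  rw [h]

theorem Wr_nonneg {n d t : ℕ} {Z : Finset ℝ} {w : ℝ → ℝ} (h : Extr n d t Z w) (a : ℕ) :
    0 ≤ Wr n d w a := by
  unfold Wr
  split_ifs
  · exact div_nonneg (h.wnn _) (cnt_nonneg' n a)
  · exact le_refl _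

theorem Wr_low {n d : ℕ} (w : ℝ → ℝ) (a : ℕ) (ha : a < d) : Wr n d w a = 0 := by
  unfold Wr
  rw [if_neg]
  rw [mem_Ev_iff]
  omega

theorem Wr_hi {n d : ℕ} (w : ℝ → ℝ) (a : ℕ) (ha : n < a + d) : Wr n d w a = 0 := by
  unfold Wr
  rw [if_neg]
  rw [mem_Ev_iff]
  omega

theorem Wr_even {n d : ℕ} (w : ℝ → ℝ) (a : ℕ) (ha : ¬ Even a) : Wr n d w a = 0 := by
  unfold Wr
  rw [if_neg]
  rw [mem_Ev_iff]
  tauto

private theorem Wr_congr {n d a b : ℕ} (hn : Even n) (w : ℝ → ℝ) (h : yv n a = yv n b) :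
    Wr n d w a = Wr n d w b := by
  unfold Wr
  by_cases ha : a ∈ Ev n d
  · rw [if_pos ha, if_pos (mem_Ev_of_yv hn ha h), h, cnt_congr h]
  · have hb : b ∉ Ev n d := fun hb => ha (mem_Ev_of_yv hn hb h.symm)
    rw [if_neg ha, if_neg hb]

theorem Wr_sum {n d t : ℕ} {Z : Finset ℝ} {w : ℝ → ℝ} (h : Extr n d t Z w) (hn : Even n)
    (hdn : 2 * d ≤ n) (φ : ℝ → ℝ) :
    ∑ x : Fin n → Bool, Wr n d w (wt x) * φ (yv n (wt x)) = ∑ z ∈ Z, w z * φ z := by
  have h1 : ∀ x : Fin n → Bool, Wr n d w (wt x) * φ (yv n (wt x))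
      = ∑ z ∈ Z, if yv n (wt x) = z then Wr n d w (wt x) * φ z else 0 := by
    intro x
    by_cases hz : yv n (wt x) ∈ Z
    · rw [Finset.sum_ite_eq Z (yv n (wt x)) (fun z => Wr n d w (wt x) * φ z), if_pos hz]
    · rw [Finset.sum_ite_eq Z (yv n (wt x)) (fun z => Wr n d w (wt x) * φ z), if_neg hz]
      unfold Wr
      rw [h.supp _ hz]
      simp
  rw [Finset.sum_congr rfl fun x _ => h1 x, Finset.sum_comm]
  apply Finset.sum_congr rfl
  intro z hz
  obtain ⟨a, ha, rfl⟩ := h.sub z hz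
  have hle : a ≤ n := (mem_Ev_iff.mp ha).1
  have hc : 0 < cnt n a := cnt_pos' hle
  have h2 : ∀ x : Fin n → Bool,
      (if yv n (wt x) = yv n a then Wr n d w (wt x) * φ (yv n a) else 0)
      = (w (yv n a) / cnt n a * φ (yv n a)) * (if yv n (wt x) = yv n a then (1 : ℝ) else 0) := by
    intro x
    split_ifs with hx
    · rw [Wr_congr hn w hx]
      unfold Wr
      rw [if_pos ha]
      ring
    · ring
  rw [Finset.sum_congr rfl fun x _ => h2 x, ← Finset.mul_sum]
  have h3 : (∑ x : Fin n → Bool, if yv n (wt x) = yv n a then (1 : ℝ) else 0) = cnt n a := rfl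
  rw [h3]
  field_simp

theorem Wr_odd {n d t : ℕ} {Z : Finset ℝ} {w : ℝ → ℝ} (h : Extr n d t Z w) (hn : Even n)
    (hdn : 2 * d ≤ n) (φ : ℝ → ℝ) :
    ∑ x : Fin n → Bool, Wr n d w (wt x) * (((n : ℝ) - 2 * wt x) * φ (yv n (wt x))) = 0 := by
  let e : (Fin n → Bool) ≃ (Fin n → Bool) :=
    { toFun := fun y i => !(y i)
      invFun := fun y i => !(y i)
      left_inv := fun y => by funext i; simp
      right_inv := fun y => by funext i; simp }
  have h1 := Equiv.sum_comp e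
    (fun x : Fin n → Bool => Wr n d w (wt x) * (((n : ℝ) - 2 * wt x) * φ (yv n (wt x))))
  have h2 : ∀ x : Fin n → Bool,
      Wr n d w (wt (e x)) * (((n : ℝ) - 2 * wt (e x)) * φ (yv n (wt (e x))))
      = - (Wr n d w (wt x) * (((n : ℝ) - 2 * wt x) * φ (yv n (wt x)))) := by
    intro x
    have hw : wt (e x) = n - wt x := LPL.wt_compl x
    have hle : wt x ≤ n := LPL.wt_le x
    rw [hw, Wr_congr hn w (yv_compl hle), yv_compl hle, Nat.cast_sub hle]
    ring
  rw [Finset.sum_congr rfl fun x _ => h2 x, Finset.sum_neg_distrib] at h1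
  linarith

end Pool.Agent.Lib.MP_0430e4_lc.LPX
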