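import Pool.Agent.Lib.MP_0430e4_lc.LPX.KREV
import Pool.Agent.Lib.MP_0430e4_lc.LPX.WR
import Pool.Agent.Lib.MP_0430e4_lc.LPX.VAN

/-!
# The transform of the extremal weight
-/

set_option autoImplicit false

namespace Pool.Agent.Lib.MP_0430e4_lc.LPX

open Finset Filter Topology Polynomial
open Tensor (chi flp)
open Impr (wt lpBound)
open LPL (hat Ev NC Lf)

/-- average over the words of the same weight -/
private theorem hatw_avg {n : ℕ} (φ : ℕ → ℝ) (y : Fin n → Bool) (k : ℕ) (hy : wt y = k) :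
    (n.choose k : ℝ) * hat (fun x => φ (wt x)) y
      = ∑ x : Fin n → Bool, φ (wt x) * ∑ y' : Fin n → Bool, (if wt y' = k then chi x y' else 0) := by
  have h1 : ∑ x : Fin n → Bool,
      φ (wt x) * ∑ y' : Fin n → Bool, (if wt y' = k then chi x y' else 0)
      = ∑ y' : Fin n → Bool, (if wt y' = k then (1 : ℝ) else 0) * hat (fun x => φ (wt x)) y := by
    have e : ∀ x : Fin n → Bool,
        φ (wt x) * ∑ y' : Fin n → Bool, (if wt y' = k then chi x y' else 0)
        = ∑ y' : Fin n → Bool, φ (wt x) * (if wt y' = k then chi x y' else 0) := by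
      intro x
      rw [Finset.mul_sum]
    simp only [e]
    rw [Finset.sum_comm]
    apply Finset.sum_congr rfl
    intro y' _
    by_cases hk : wt y' = k
    · simp only [hk, if_true, one_mul]
      rw [LPL.hat_radial φ y y' (by rw [hy, hk])]
      rfl
    · simp [hk]
  rw [h1, ← Finset.sum_mul, van_card_wt]

theorem hat_even {n d t : ℕ} {Z : Finset ℝ} {w : ℝ → ℝ} (h : Extr n d t Z w) (hn : Even n)
    (hdn : 2 * d ≤ n) {j : ℕ} (y : Fin n → Bool) (hy : wt y = 2 * j) :
    (n.choose (2 * j) : ℝ) * hat (fun x => Wr n d w (wt x)) y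
      = ∑ z ∈ Z, w z * (EO n j).1.eval z := by
  rw [hatw_avg _ y _ hy, ← Wr_sum h hn hdn (fun z => (EO n j).1.eval z)]
  apply Finset.sum_congr rfl
  intro x _
  rw [kr_even]

theorem hat_odd {n d t : ℕ} {Z : Finset ℝ} {w : ℝ → ℝ} (h : Extr n d t Z w) (hn : Even n)
    (hdn : 2 * d ≤ n) (y : Fin n → Bool) (hy : ¬ Even (wt y)) :
    hat (fun x => Wr n d w (wt x)) y = 0 := by
  obtain ⟨j, hj⟩ := Nat.not_even_iff_odd.1 hy
  have h1 := hatw_avg (fun a => Wr n d w a) y _ hj
  have h2 : ∑ x : Fin n → Bool, Wr n d w (wt x)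
      * ∑ y' : Fin n → Bool, (if wt y' = 2 * j + 1 then chi x y' else 0) = 0 := by
    refine Eq.trans ?_ (Wr_odd h hn hdn (fun z => (EO n j).2.eval z))
    apply Finset.sum_congr rfl
    intro x _
    rw [kr_odd]
  rw [h2] at h1
  rcases mul_eq_zero.1 h1 with h3 | h3
  · exfalso
    have hle : 2 * j + 1 ≤ n := by
      rw [← hj]
      exact LPL.wt_le y
    have := Nat.choose_pos hle
    have h4 : (n.choose (2 * j + 1)) = 0 := by exact_mod_cast h3
    omega
  · exact h3

end Pool.Agent.Lib.MP_0430e4_lc.LPX
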