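import Pool.Agent.Lib.MP_0430e4_lc.LPX.Defs

/-!
# The sum of the absolute values of the Krawtchouk polynomials
-/

set_option autoImplicit false

namespace Pool.Agent.Lib.MP_0430e4_lc.LPX

open Finset Filter Topology Polynomial

namespace KRABS

theorem aev_eq (f : ℝ[X]) (r : ℝ) {K : ℕ} (hK : f.natDegree < K) :
    aev f r = ∑ i ∈ range K, |f.coeff i| * r ^ i := by
  unfold aev
  refine sum_subset (by intro x; simp only [mem_range]; omega) ?_
  intro i _ hi
  rw [mem_range, not_lt] at hi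
  rw [coeff_eq_zero_of_natDegree_lt (by omega)]
  simp

theorem aev_sub_le (f g : ℝ[X]) {r : ℝ} (hr : 0 ≤ r) : aev (f - g) r ≤ aev f r + aev g r := by
  have hK : (f - g).natDegree < max f.natDegree g.natDegree + 1 :=
    Nat.lt_succ_of_le (natDegree_sub_le f g)
  rw [aev_eq _ _ hK, aev_eq f r (K := max f.natDegree g.natDegree + 1)
    (Nat.lt_succ_of_le (le_max_left _ _)), aev_eq g r (K := max f.natDegree g.natDegree + 1)
    (Nat.lt_succ_of_le (le_max_right _ _)), ← sum_add_distrib]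
  refine sum_le_sum fun i _ => ?_
  rw [← add_mul, coeff_sub]
  exact mul_le_mul_of_nonneg_right (abs_sub _ _) (pow_nonneg hr i)

theorem aev_C_mul (c : ℝ) (f : ℝ[X]) (r : ℝ) : aev (C c * f) r = |c| * aev f r := by
  have hK : (C c * f).natDegree < f.natDegree + 1 := Nat.lt_succ_of_le (natDegree_C_mul_le c f)
  rw [aev_eq _ _ hK, aev_eq f r (Nat.lt_succ_self _), mul_sum]
  refine sum_congr rfl fun i _ => ?_
  rw [coeff_C_mul, abs_mul, mul_assoc]

theorem aev_X_mul (f : ℝ[X]) (r : ℝ) : aev (X * f) r = r * aev f r := by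
  have hK : (X * f).natDegree < f.natDegree + 1 + 1 := by
    have := natDegree_mul_le (p := (X : ℝ[X])) (q := f)
    have h2 := natDegree_X_le (R := ℝ)
    omega
  rw [aev_eq _ _ hK, sum_range_succ']
  simp only [coeff_X_mul, coeff_X_mul_zero, abs_zero, zero_mul, add_zero]
  rw [aev_eq f r (Nat.lt_succ_self _), mul_sum]
  refine sum_congr rfl fun i _ => ?_
  rw [pow_succ]; ring

theorem aev_one (r : ℝ) : aev 1 r = 1 := by
  unfold aev
  simp

/-- `C(n+k-1, k)` -/
noncomputable def be (n k : ℕ) : ℝ := ((n + k - 1).choose k : ℕ)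

theorem be_nonneg (n k : ℕ) : 0 ≤ be n k := Nat.cast_nonneg _

theorem be_succ (n k : ℕ) : ((k : ℝ) + 1) * be n (k + 1) = ((n : ℝ) + k) * be n k := by
  unfold be
  rcases Nat.eq_zero_or_pos (n + k) with h | h
  · have hn : n = 0 := by omega
    have hk : k = 0 := by omega
    subst hn; subst hk; simp
  · obtain ⟨N, hN⟩ : ∃ N, n + k = N + 1 := ⟨n + k - 1, by omega⟩
    have h1 : n + (k + 1) - 1 = N + 1 := by omega
    have h2 : n + k - 1 = N := by omega
    rw [h1, h2]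
    have h3 := Nat.add_one_mul_choose_eq N k
    have h4 : ((N : ℝ) + 1) * (N.choose k : ℝ) = ((N + 1).choose (k + 1) : ℝ) * ((k : ℝ) + 1) := by
      exact_mod_cast h3
    have h5 : (n : ℝ) + k = N + 1 := by exact_mod_cast hN
    rw [h5, h4]; ring

theorem be_rec (n k : ℕ) : (n : ℝ) * be n (k + 1) + |(n : ℝ) - k| * be n k ≤
    ((k : ℝ) + 2) * be n (k + 2) := by
  have h1 := be_succ n (k + 1)
  have h2 := be_succ n k
  push_cast at h1
  have h3 : |(n : ℝ) - k| * be n k ≤ ((n : ℝ) + k) * be n k := by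
    refine mul_le_mul_of_nonneg_right ?_ (be_nonneg n k)
    rw [abs_le]
    have := Nat.cast_nonneg (α := ℝ) n
    have := Nat.cast_nonneg (α := ℝ) k
    constructor <;> linarith
  have h4 : ((k : ℝ) + 2) * be n (k + 2) = ((n : ℝ) + (k + 1)) * be n (k + 1) := by
    rw [← h1]; ring
  rw [h4]
  nlinarith

theorem main (n m : ℕ) : aev (EO n m).1 ((n : ℝ) ^ 2) ≤ be n (2 * m) ∧
    n * aev (EO n m).2 ((n : ℝ) ^ 2) ≤ be n (2 * m + 1) := by
  have hr : (0 : ℝ) ≤ (n : ℝ) ^ 2 := by positivity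
  have hn : (0 : ℝ) ≤ (n : ℝ) := Nat.cast_nonneg n
  induction m with
  | zero =>
    constructor
    · show aev 1 _ ≤ _
      rw [aev_one]; simp [be]
    · show (n : ℝ) * aev 1 _ ≤ _
      rw [aev_one]; simp [be]
  | succ m ih =>
    obtain ⟨ih1, ih2⟩ := ih
    have h1 : aev (EO n (m + 1)).1 ((n : ℝ) ^ 2) ≤ be n (2 * (m + 1)) := by
      show aev (C (1 / (2 * (m : ℝ) + 2)) * (X * (EO n m).2 - C ((n : ℝ) - 2 * m) * (EO n m).1)) _ ≤ _
      rw [aev_C_mul, abs_of_nonneg (by positivity)]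
      have h2 := aev_sub_le (X * (EO n m).2) (C ((n : ℝ) - 2 * m) * (EO n m).1) hr
      rw [aev_X_mul, aev_C_mul] at h2
      have h3 := be_rec n (2 * m)
      push_cast at h3
      have h4 : aev (X * (EO n m).2 - C ((n : ℝ) - 2 * m) * (EO n m).1) ((n : ℝ) ^ 2) ≤
          (2 * (m : ℝ) + 2) * be n (2 * m + 2) := by
        refine h2.trans (le_trans ?_ h3)
        refine add_le_add ?_ ?_
        · have := mul_le_mul_of_nonneg_left ih2 hn
          nlinarith
        · exact mul_le_mul_of_nonneg_left ih1 (abs_nonneg _)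
      rw [one_div, inv_mul_le_iff₀ (by positivity)]
      exact h4
    refine ⟨h1, ?_⟩
    show (n : ℝ) * aev (C (1 / (2 * (m : ℝ) + 3)) * ((EO n (m + 1)).1 -
      C ((n : ℝ) - 2 * m - 1) * (EO n m).2)) _ ≤ _
    rw [aev_C_mul, abs_of_nonneg (by positivity)]
    have h2 := aev_sub_le (EO n (m + 1)).1 (C ((n : ℝ) - 2 * m - 1) * (EO n m).2) hr
    rw [aev_C_mul] at h2
    have h3 := be_rec n (2 * m + 1)
    push_cast at h3
    have h5 : (n : ℝ) * aev ((EO n (m + 1)).1 - C ((n : ℝ) - 2 * m - 1) * (EO n m).2) ((n : ℝ) ^ 2)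
        ≤ (2 * (m : ℝ) + 1 + 2) * be n (2 * m + 1 + 2) := by
      refine le_trans ?_ h3
      refine (mul_le_mul_of_nonneg_left h2 hn).trans ?_
      rw [mul_add]
      refine add_le_add ?_ ?_
      · exact mul_le_mul_of_nonneg_left h1 hn
      · have e1 : (n : ℝ) - 2 * m - 1 = (n : ℝ) - (2 * m + 1) := by ring
        rw [e1]
        calc (n : ℝ) * (|(n : ℝ) - (2 * m + 1)| * aev (EO n m).2 ((n : ℝ) ^ 2))
            = |(n : ℝ) - (2 * m + 1)| * (n * aev (EO n m).2 ((n : ℝ) ^ 2)) := by ring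
          _ ≤ _ := mul_le_mul_of_nonneg_left ih2 (abs_nonneg _)
    have e2 : (n : ℝ) * (1 / (2 * (m : ℝ) + 3) * aev ((EO n (m + 1)).1 -
        C ((n : ℝ) - 2 * m - 1) * (EO n m).2) ((n : ℝ) ^ 2)) =
        (2 * (m : ℝ) + 3)⁻¹ * (n * aev ((EO n (m + 1)).1 -
        C ((n : ℝ) - 2 * m - 1) * (EO n m).2) ((n : ℝ) ^ 2)) := by
      rw [one_div]; ring
    rw [e2, inv_mul_le_iff₀ (by positivity)]
    refine h5.trans (le_of_eq ?_)
    rw [show 2 * (m + 1) + 1 = 2 * m + 1 + 2 by ring]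
    ring

end KRABS

/-- The sum of the absolute values of the coefficients of the even Krawtchouk polynomials. -/
theorem aev_EO (n m : ℕ) (hm : 2 * m ≤ n) :
    aev (EO n m).1 ((n : ℝ) ^ 2) ≤ (((n + 2 * m - 1).choose (2 * m) : ℕ) : ℝ) :=
  (KRABS.main n m).1

end Pool.Agent.Lib.MP_0430e4_lc.LPX
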