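import Pool.Agent.Lib.MP_0430e4_lc.LPX.Defs

/-!
# Two elementary product bounds
-/

set_option autoImplicit false

namespace Pool.Agent.Lib.MP_0430e4_lc.LPX

open Finset Polynomial
open LPL (Ev)

/-- `z ≤ (n - 2 d)^2` -/
theorem prod_ge {n d t : ℕ} {Z : Finset ℝ} {w : ℝ → ℝ} (h : Extr n d t Z w) (hd : 1 ≤ d)
    (hdn : 2 * d ≤ n) :
    (n : ℝ) ^ (2 * t) * (1 - ((n : ℝ) - 2 * d) ^ 2 / (n : ℝ) ^ 2) ^ t
      ≤ ∏ z ∈ Z, ((n : ℝ) ^ 2 - z) := by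
  have hn : (0 : ℝ) < n := by
    have : 0 < n := by omega
    exact_mod_cast this
  have hd' : (1 : ℝ) ≤ d := by exact_mod_cast hd
  have hdn' : 2 * (d : ℝ) ≤ n := by exact_mod_cast hdn
  have e : (n : ℝ) ^ (2 * t) * (1 - ((n : ℝ) - 2 * d) ^ 2 / (n : ℝ) ^ 2) ^ t
      = ∏ _z ∈ Z, ((n : ℝ) ^ 2 - ((n : ℝ) - 2 * d) ^ 2) := by
    rw [Finset.prod_const, h.card, pow_mul, ← mul_pow]
    congr 1
    field_simp
  rw [e]
  apply Finset.prod_le_prod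
  · intro z _
    nlinarith
  · intro z hz
    obtain ⟨a, ha, rfl⟩ := h.sub z hz
    unfold Ev at ha
    rw [Finset.mem_filter] at ha
    obtain ⟨-, -, h1, h2⟩ := ha
    have h1' : (d : ℝ) ≤ a := by exact_mod_cast h1
    have h2' : (a : ℝ) + d ≤ n := by exact_mod_cast h2
    unfold yv
    nlinarith

theorem choose_fact_le (n t : ℕ) : ((n.choose t : ℝ) * (t.factorial : ℝ)) ≤ (n : ℝ) ^ t := by
  have h1 := Nat.descFactorial_le_pow n t
  rw [Nat.descFactorial_eq_factorial_mul_choose, mul_comm] at h1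
  exact_mod_cast h1

end Pool.Agent.Lib.MP_0430e4_lc.LPX
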