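import Pool.Agent.Lib.MP_0430e4_lc.LPX.Defs

set_option autoImplicit false

namespace Pool.Agent.Lib.MP_0430e4_lc.LPX

open Finset Filter Topology Polynomial

private theorem one_add_le_exp {u : ℝ} (h0 : 0 ≤ u) (h1 : u ≤ 1 / 2) :
    1 + u ≤ (1 - u) * Real.exp (2 * u + u ^ 2) := by
  have h2 := Real.quadratic_le_exp_of_nonneg (x := 2 * u + u ^ 2) (by positivity)
  have h3 : (1 - u) * (1 + (2 * u + u ^ 2) + (2 * u + u ^ 2) ^ 2 / 2)
      ≤ (1 - u) * Real.exp (2 * u + u ^ 2) := by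
    apply mul_le_mul_of_nonneg_left h2
    linarith
  refine le_trans ?_ h3
  have h4 : (1 - u) * (1 + (2 * u + u ^ 2) + (2 * u + u ^ 2) ^ 2 / 2) - (1 + u)
      = u ^ 2 * (1 - u - 3 / 2 * u ^ 2 - u ^ 3 / 2) := by ring
  have h5 : u ^ 2 ≤ 1 / 4 := by nlinarith
  have h6 : u ^ 3 ≤ 1 / 8 := by
    have : u ^ 3 = u * u ^ 2 := by ring
    rw [this]; nlinarith [sq_nonneg u]
  have h7 : 0 ≤ 1 - u - 3 / 2 * u ^ 2 - u ^ 3 / 2 := by nlinarith
  have h8 : 0 ≤ u ^ 2 * (1 - u - 3 / 2 * u ^ 2 - u ^ 3 / 2) := mul_nonneg (sq_nonneg u) h7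
  linarith

/-- `C(n+k-1,k)/C(n,k) = ∏_{i<k} (n+i)/(n-i)` and `(1+u)/(1-u) ≤ exp (2 u + u^2)` for
`0 ≤ u ≤ 1/2`. -/
theorem choose_ratio {n k : ℕ} (hn : 1 ≤ n) (h : 2 * k ≤ n) :
    (((n + k - 1).choose k : ℕ) : ℝ)
      ≤ n.choose k * Real.exp ((k : ℝ) ^ 2 / n + (k : ℝ) ^ 3 / (n : ℝ) ^ 2) := by
  have hn0 : (0 : ℝ) < n := by exact_mod_cast hn
  induction k with
  | zero => simp
  | succ k ih =>
    have ih' := ih (by omega)
    -- the two ratios
    have e1 : ((n + (k + 1) - 1).choose (k + 1) : ℕ) * (k + 1)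
        = (n + k) * ((n + k - 1).choose k) := by
      have h1 : n + k = (n + k - 1) + 1 := by omega
      have h2 := Nat.add_one_mul_choose_eq (n + k - 1) k
      have h3 : n + (k + 1) - 1 = (n + k - 1) + 1 := by omega
      rw [h3]
      calc ((n + k - 1) + 1).choose (k + 1) * (k + 1)
          = ((n + k - 1) + 1) * ((n + k - 1).choose k) := h2.symm
        _ = (n + k) * ((n + k - 1).choose k) := by rw [← h1]
    have e2 : n.choose (k + 1) * (k + 1) = n.choose k * (n - k) := Nat.choose_succ_right_eq n k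
    have e1' : (((n + (k + 1) - 1).choose (k + 1) : ℕ) : ℝ) * ((k : ℝ) + 1)
        = ((n : ℝ) + k) * (((n + k - 1).choose k : ℕ) : ℝ) := by exact_mod_cast e1
    have e2' : (n.choose (k + 1) : ℝ) * ((k : ℝ) + 1) = (n.choose k : ℝ) * ((n : ℝ) - k) := by
      have h3 : ((n - k : ℕ) : ℝ) = (n : ℝ) - k := by
        rw [Nat.cast_sub (by omega)]
      rw [← h3]; exact_mod_cast e2
    have hk : (0 : ℝ) ≤ k := Nat.cast_nonneg k
    have hkn : 2 * (k : ℝ) ≤ n := by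
      have : 2 * k ≤ n := by omega
      exact_mod_cast this
    set u : ℝ := (k : ℝ) / n with hu
    have hu0 : 0 ≤ u := by positivity
    have hu1 : u ≤ 1 / 2 := by rw [hu, div_le_iff₀ hn0]; linarith
    have h4 := one_add_le_exp hu0 hu1
    have h5 : (n : ℝ) + k = n * (1 + u) := by rw [hu]; field_simp
    have h6 : (n : ℝ) - k = n * (1 - u) := by rw [hu]; field_simp
    have h7 : 2 * u + u ^ 2 + ((k : ℝ) ^ 2 / n + (k : ℝ) ^ 3 / (n : ℝ) ^ 2)
        ≤ ((k + 1 : ℕ) : ℝ) ^ 2 / n + ((k + 1 : ℕ) : ℝ) ^ 3 / (n : ℝ) ^ 2 := by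
      push_cast
      rw [hu]
      have h8 : 2 * ((k : ℝ) / n) + ((k : ℝ) / n) ^ 2 + ((k : ℝ) ^ 2 / n + (k : ℝ) ^ 3 / (n : ℝ) ^ 2)
          = (2 * k + (k : ℝ) ^ 2) / n + ((k : ℝ) ^ 2 + (k : ℝ) ^ 3) / (n : ℝ) ^ 2 := by
        field_simp
        ring
      rw [h8]
      apply add_le_add
      · apply div_le_div_of_nonneg_right _ hn0.le
        nlinarith
      · apply div_le_div_of_nonneg_right _ (by positivity)
        nlinarith
    have hC : (0 : ℝ) ≤ n.choose k := Nat.cast_nonneg _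
    have hk1 : (0 : ℝ) < (k : ℝ) + 1 := by positivity
    refine le_of_mul_le_mul_right ?_ hk1
    rw [e1']
    calc ((n : ℝ) + k) * (((n + k - 1).choose k : ℕ) : ℝ)
        ≤ ((n : ℝ) + k) * (n.choose k * Real.exp ((k : ℝ) ^ 2 / n + (k : ℝ) ^ 3 / (n : ℝ) ^ 2)) :=
          mul_le_mul_of_nonneg_left ih' (by positivity)
      _ = (n.choose k : ℝ) * n * ((1 + u) * Real.exp ((k : ℝ) ^ 2 / n + (k : ℝ) ^ 3 / (n : ℝ) ^ 2)) := by
          rw [h5]; ring
      _ ≤ (n.choose k : ℝ) * n * (((1 - u) * Real.exp (2 * u + u ^ 2))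
            * Real.exp ((k : ℝ) ^ 2 / n + (k : ℝ) ^ 3 / (n : ℝ) ^ 2)) := by
          apply mul_le_mul_of_nonneg_left _ (by positivity)
          exact mul_le_mul_of_nonneg_right h4 (Real.exp_pos _).le
      _ = (n.choose k : ℝ) * ((n : ℝ) - k) * Real.exp (2 * u + u ^ 2
            + ((k : ℝ) ^ 2 / n + (k : ℝ) ^ 3 / (n : ℝ) ^ 2)) := by
          rw [h6, Real.exp_add (2 * u + u ^ 2)]; ring
      _ ≤ (n.choose k : ℝ) * ((n : ℝ) - k)
            * Real.exp (((k + 1 : ℕ) : ℝ) ^ 2 / n + ((k + 1 : ℕ) : ℝ) ^ 3 / (n : ℝ) ^ 2) := by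
          apply mul_le_mul_of_nonneg_left (Real.exp_le_exp.mpr h7)
          apply mul_nonneg hC
          linarith
      _ = (n.choose (k + 1) : ℝ)
            * Real.exp (((k + 1 : ℕ) : ℝ) ^ 2 / n + ((k + 1 : ℕ) : ℝ) ^ 3 / (n : ℝ) ^ 2)
            * ((k : ℝ) + 1) := by
          rw [← e2']; ring

end Pool.Agent.Lib.MP_0430e4_lc.LPX
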