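import Pool.Agent.Lib.MP_0430e4_lc.LPX.QERR
import Pool.Agent.Lib.MP_0430e4_lc.LPX.VAN
import Pool.Agent.Lib.MP_0430e4_lc.LPX.KRABS
import Pool.Agent.Lib.MP_0430e4_lc.LPX.RATIO
import Pool.Agent.Lib.MP_0430e4_lc.LPX.PRD
import Pool.Agent.Lib.MP_0430e4_lc.LPX.HATW

/-!
# The levels between `4 m` and `n / 2`
-/

set_option autoImplicit false

namespace Pool.Agent.Lib.MP_0430e4_lc.LPX

open Finset Polynomial
open Tensor (chi flp)
open Impr (wt lpBound)
open LPL (hat Ev NC Lf)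

/-- levels between `4 m` and `n / 2` -/
theorem hat_bound {n d m : ℕ} {Z : Finset ℝ} {w : ℝ → ℝ} (h : Extr n d (2 * m) Z w)
    (hn : Even n) (hm : 1 ≤ m) (hd : 1 ≤ d) (hdn : 2 * d ≤ n) {j : ℕ} (hj : 1 ≤ j)
    (hjn : 4 * j ≤ n) (y : Fin n → Bool) (hy : wt y = 2 * j) :
    (n.choose (2 * m) : ℝ) * (1 - ((n : ℝ) - 2 * d) ^ 2 / (n : ℝ) ^ 2) ^ (2 * m)
        * |hat (fun x => Wr n d w (wt x)) y|
      ≤ Real.exp ((2 * j : ℝ) ^ 2 / n + (2 * j : ℝ) ^ 3 / (n : ℝ) ^ 2) := by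
  have hn1 : 1 ≤ n := by omega
  have hn0 : (0 : ℝ) < n := by exact_mod_cast hn1
  set A : ℝ := (1 - ((n : ℝ) - 2 * d) ^ 2 / (n : ℝ) ^ 2) ^ (2 * m) with hA
  have hApos : 0 < A := by
    apply pow_pos
    rw [sub_pos, div_lt_one (by positivity)]
    have h1 : (1 : ℝ) ≤ d := by exact_mod_cast hd
    have h2 : (2 : ℝ) * d ≤ n := by exact_mod_cast hdn
    nlinarith
  set P : ℝ := ∏ z ∈ Z, ((n : ℝ) ^ 2 - z) with hP
  have hprod : (n : ℝ) ^ (2 * (2 * m)) * A ≤ P := prod_ge h hd hdn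
  have hPpos : 0 < P := lt_of_lt_of_le (by positivity) hprod
  have hq := quad_error h (by omega) hd hdn (EO n j).1
  rw [LY_EO hj (by omega), sub_zero] at hq
  have he := hat_even h hn hdn (j := j) y hy
  have haev : aev (EO n j).1 ((n : ℝ) ^ 2)
      ≤ n.choose (2 * j) * Real.exp ((2 * j : ℝ) ^ 2 / n + (2 * j : ℝ) ^ 3 / (n : ℝ) ^ 2) := by
    refine le_trans (aev_EO n j (by omega)) ?_
    have := choose_ratio (n := n) (k := 2 * j) hn1 (by omega)
    push_cast at this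
    exact this
  set E : ℝ := Real.exp ((2 * j : ℝ) ^ 2 / n + (2 * j : ℝ) ^ 3 / (n : ℝ) ^ 2) with hE
  have hEpos : 0 < E := Real.exp_pos _
  set K : ℝ := (n.choose (2 * j) : ℝ) with hK
  have hKpos : 0 < K := by
    rw [hK]
    exact_mod_cast Nat.choose_pos (by omega)
  set N : ℝ := (n.choose (2 * m) : ℝ) with hN
  set F : ℝ := ((2 * m).factorial : ℝ) with hF
  have hN0 : 0 ≤ N := by positivity
  have hF0 : 0 ≤ F := by positivity
  have h1 : K * |hat (fun x => Wr n d w (wt x)) y| ≤ N * F ^ 2 * ((K * E) / P) := by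
    have h2 : K * |hat (fun x => Wr n d w (wt x)) y| = |∑ z ∈ Z, w z * (EO n j).1.eval z| := by
      rw [← he, abs_mul, abs_of_pos hKpos]
    rw [h2]
    refine le_trans hq ?_
    have h3 : LY n (NZ Z) ≤ N * F ^ 2 := h.norm
    have h4 : 0 ≤ aev (EO n j).1 ((n : ℝ) ^ 2) := by
      unfold aev
      positivity
    calc LY n (NZ Z) * (aev (EO n j).1 ((n : ℝ) ^ 2) / P)
        ≤ (N * F ^ 2) * (aev (EO n j).1 ((n : ℝ) ^ 2) / P) := by
          apply mul_le_mul_of_nonneg_right h3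
          positivity
      _ ≤ N * F ^ 2 * ((K * E) / P) := by
          apply mul_le_mul_of_nonneg_left _ (by positivity)
          exact div_le_div_of_nonneg_right haev hPpos.le
  have h5 : |hat (fun x => Wr n d w (wt x)) y| ≤ N * F ^ 2 * (E / P) := by
    have h6 : N * F ^ 2 * ((K * E) / P) = K * (N * F ^ 2 * (E / P)) := by ring
    rw [h6] at h1
    exact le_of_mul_le_mul_left h1 hKpos
  have h7 : N * F ≤ (n : ℝ) ^ (2 * m) := choose_fact_le n (2 * m)
  have h8 : (N * F) ^ 2 ≤ (n : ℝ) ^ (2 * (2 * m)) := by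
    calc (N * F) ^ 2 ≤ ((n : ℝ) ^ (2 * m)) ^ 2 := pow_le_pow_left₀ (by positivity) h7 2
      _ = (n : ℝ) ^ (2 * (2 * m)) := by rw [← pow_mul]; ring_nf
  calc N * A * |hat (fun x => Wr n d w (wt x)) y|
      ≤ N * A * (N * F ^ 2 * (E / P)) := mul_le_mul_of_nonneg_left h5 (by positivity)
    _ = ((N * F) ^ 2 * A / P) * E := by ring
    _ ≤ 1 * E := by
        apply mul_le_mul_of_nonneg_right _ hEpos.le
        rw [div_le_one hPpos]
        refine le_trans ?_ hprod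
        exact mul_le_mul_of_nonneg_right h8 hApos.le
    _ = E := one_mul E

end Pool.Agent.Lib.MP_0430e4_lc.LPX
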