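import Pool.Agent.Lib.MP_0430e4_lc.LPL.Defs

/-!
# Second order lower bound for Delsarte's linear program: definitions
-/

set_option autoImplicit false

namespace Pool.Agent.Lib.MP_0430e4_lc.LPX

open Finset Filter Topology Polynomial
open Tensor (chi flp)
open Impr (wt lpBound)
open LPL (hat Ev NC Lf)

/-- the variable `Y = (n - 2 a)^2` -/
noncomputable def yv (n a : ℕ) : ℝ := ((n : ℝ) - 2 * a) ^ 2

/-- The functional: average over the even half of the cube of a polynomial in
`Y = (n - 2 wt x)^2`. -/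
noncomputable def LY (n : ℕ) : ℝ[X] →ₗ[ℝ] ℝ where
  toFun P := (2 / 2 ^ n) * ∑ x : Fin n → Bool, if Even (wt x) then P.eval (yv n (wt x)) else 0
  map_add' P Q := by
    rw [← mul_add, ← Finset.sum_add_distrib]
    congr 1
    apply Finset.sum_congr rfl
    intro x _
    split_ifs <;> simp
  map_smul' c P := by
    simp only [RingHom.id_apply, smul_eq_mul]
    rw [Finset.mul_sum, Finset.mul_sum, Finset.mul_sum]
    apply Finset.sum_congr rfl
    intro x _
    split_ifs
    · rw [Polynomial.eval_smul, smul_eq_mul]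
      ring
    · simp

/-- `∏ (Y - z)` -/
noncomputable def NZ (Z : Finset ℝ) : ℝ[X] := ∏ z ∈ Z, (X - C z)

/-- the sum of the absolute values of the terms of `f` at `r` -/
noncomputable def aev (f : ℝ[X]) (r : ℝ) : ℝ := ∑ i ∈ range (f.natDegree + 1), |f.coeff i| * r ^ i

/-- The Krawtchouk polynomials in `Y = (n - 2 a)^2`: `K_{2 m} = (EO n m).1 (Y)` and
`K_{2 m + 1} = (n - 2 a) * (EO n m).2 (Y)`. -/
noncomputable def EO (n : ℕ) : ℕ → ℝ[X] × ℝ[X]
  | 0 => (1, 1)
  | m + 1 =>
    (C (1 / (2 * (m : ℝ) + 2)) * (X * (EO n m).2 - C ((n : ℝ) - 2 * m) * (EO n m).1),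
     C (1 / (2 * (m : ℝ) + 3)) *
      (C (1 / (2 * (m : ℝ) + 2)) * (X * (EO n m).2 - C ((n : ℝ) - 2 * m) * (EO n m).1)
        - C ((n : ℝ) - 2 * m - 1) * (EO n m).2))

/-- The extremal quadrature: `Z` is a set of `t` values of `Y` at even numbers in `[d, n - d]`,
the weights `w` on `Z` represent the functional `LY` on degree `< t`, and `∏ (Y - z)` is
nonnegative at all even numbers and has small mean. -/
structure Extr (n d t : ℕ) (Z : Finset ℝ) (w : ℝ → ℝ) : Prop where
  sub : ∀ z ∈ Z, ∃ a ∈ Ev n d, z = yv n a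
  card : Z.card = t
  wnn : ∀ z, 0 ≤ w z
  supp : ∀ z, z ∉ Z → w z = 0
  mom : ∀ P : ℝ[X], P.natDegree < t → ∑ z ∈ Z, w z * P.eval z = LY n P
  norm : LY n (NZ Z) ≤ n.choose t * (t.factorial : ℝ) ^ 2
  nonneg : ∀ a, Even a → a ≤ n → 0 ≤ (NZ Z).eval (yv n a)

/-- number of words with the same value of `Y` -/
noncomputable def cnt (n a : ℕ) : ℝ :=
  ∑ x : Fin n → Bool, if yv n (wt x) = yv n a then (1 : ℝ) else 0

/-- the radial weight on the cube: `w` spread uniformly -/
noncomputable def Wr (n d : ℕ) (w : ℝ → ℝ) (a : ℕ) : ℝ :=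
  if a ∈ Ev n d then w (yv n a) / cnt n a else 0

end Pool.Agent.Lib.MP_0430e4_lc.LPX
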