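import Pool.Agent.Lib.MP_0430e4_lc.LPX.EXD

/-!
# The exchange argument: an extremal quadrature
-/

set_option autoImplicit false

namespace Pool.Agent.Lib.MP_0430e4_lc.LPX

open Finset Polynomial

private theorem exists_eps (S : Finset ℝ) (a b : ℝ → ℝ) (ha : ∀ v ∈ S, 0 < a v) :
    ∃ e : ℝ, 0 < e ∧ ∀ v ∈ S, 0 ≤ a v + e * b v := by
  have h1 : ∀ v ∈ S, ∀ᶠ e in nhdsWithin (0 : ℝ) (Set.Ioi 0), 0 ≤ a v + e * b v := by
    intro v hv
    have hc : Filter.Tendsto (fun e : ℝ => a v + e * b v) (nhdsWithin 0 (Set.Ioi 0))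
        (nhds (a v + 0 * b v)) := by
      apply Filter.Tendsto.mono_left _ nhdsWithin_le_nhds
      exact (Continuous.tendsto (by fun_prop) 0)
    have hpos : 0 < a v + 0 * b v := by simpa using ha v hv
    exact (hc.eventually (lt_mem_nhds hpos)).mono (fun e he => he.le)
  have h2 := (Filter.eventually_all_finset S).2 h1
  obtain ⟨e, he, he'⟩ := (h2.and self_mem_nhdsWithin).exists
  exact ⟨e, he', he⟩

/-- Exchange argument. -/
theorem exchange (V : Finset ℝ) (t : ℕ) (hV : t ≤ V.card) (L : ℝ[X] →ₗ[ℝ] ℝ)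
    (hL : ∀ P : ℝ[X], P.natDegree < t → (∀ v ∈ V, 0 ≤ P.eval v) → 0 ≤ L P)
    (N : ℝ[X]) (hN : N.Monic) (hd : N.natDegree = t) (hp : ∀ v ∈ V, 0 ≤ N.eval v) :
    ∃ (Z : Finset ℝ) (w : ℝ → ℝ), Z ⊆ V ∧ Z.card = t ∧ (∀ v ∈ V, 0 ≤ (NZ Z).eval v) ∧
      L (NZ Z) ≤ L N ∧ (∀ z, 0 ≤ w z) ∧ (∀ z, z ∉ Z → w z = 0) ∧
      ∀ P : ℝ[X], P.natDegree < t → ∑ z ∈ Z, w z * P.eval z = L P := by
  classical
  obtain ⟨S, hS⟩ : ∃ S : Finset (Finset ℝ), S = V.powerset.filter
    (fun Z => Z.card = t ∧ ∀ v ∈ V, 0 ≤ (NZ Z).eval v) := ⟨_, rfl⟩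
  have hmem : ∀ Z, Z ∈ S ↔ Z ⊆ V ∧ Z.card = t ∧ ∀ v ∈ V, 0 ≤ (NZ Z).eval v := by
    intro Z
    rw [hS, Finset.mem_filter, Finset.mem_powerset]
  have hne : S.Nonempty := by
    obtain ⟨Z, h1, h2, h3, _⟩ := descend V t hV L hL N hN hd hp
    exact ⟨Z, (hmem Z).2 ⟨h1, h2, h3⟩⟩
  obtain ⟨Z, hZS, hmin⟩ := Finset.exists_min_image S (fun Z => L (NZ Z)) hne
  obtain ⟨hZV, hZc, hZp⟩ := (hmem Z).1 hZS
  have hopt : ∀ M : ℝ[X], M.Monic → M.natDegree = t → (∀ v ∈ V, 0 ≤ M.eval v) →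
      L (NZ Z) ≤ L M := by
    intro M h1 h2 h3
    obtain ⟨Z', g1, g2, g3, g4⟩ := descend V t hV L hL M h1 h2 h3
    exact (hmin Z' ((hmem Z').2 ⟨g1, g2, g3⟩)).trans g4
  have hinj : Set.InjOn (id : ℝ → ℝ) (Z : Set ℝ) := Function.injective_id.injOn
  refine ⟨Z, fun z => if z ∈ Z then L (Lagrange.basis Z id z) else 0, hZV, hZc, hZp,
    hopt N hN hd hp, ?_, ?_, ?_⟩
  · intro z
    by_cases hz : z ∈ Z
    swap
    · simp [hz]
    simp only [hz, if_true]
    by_contra hneg
    push Not at hneg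
    obtain ⟨e, he, he'⟩ := exists_eps (V \ Z) (fun v => (NZ Z).eval v)
      (fun v => (Lagrange.basis Z id z).eval v) (by
        intro v hv
        obtain ⟨hv1, hv2⟩ := Finset.mem_sdiff.1 hv
        refine lt_of_le_of_ne (hZp v hv1) (Ne.symm ?_)
        rw [NZ_eval]
        apply Finset.prod_ne_zero_iff.2
        intro x hx hxv
        rw [sub_eq_zero] at hxv
        exact hv2 (hxv ▸ hx))
    have hbdeg : (Lagrange.basis Z id z).degree < (NZ Z).degree := by
      rw [Lagrange.degree_basis hinj hz, degree_eq_natDegree (NZ_monic Z).ne_zero, NZ_natDegree]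
      have : 0 < Z.card := Finset.card_pos.2 ⟨z, hz⟩
      exact_mod_cast Nat.sub_lt this one_pos
    have hsdeg : (e • Lagrange.basis Z id z).degree < (NZ Z).degree :=
      lt_of_le_of_lt (degree_smul_le _ _) hbdeg
    have h1 := hopt (NZ Z + e • Lagrange.basis Z id z)
      ((NZ_monic Z).add_of_left hsdeg) (by
        rw [natDegree_add_eq_left_of_degree_lt hsdeg, NZ_natDegree, hZc]) (by
        intro v hv
        rw [eval_add, eval_smul, smul_eq_mul]
        by_cases hvZ : v ∈ Z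
        · have h0 : (NZ Z).eval v = 0 := by
            rw [NZ_eval, Finset.prod_eq_zero hvZ (sub_self v)]
          rw [h0, zero_add]
          apply mul_nonneg he.le
          by_cases hvz : v = z
          · subst hvz
            have := Lagrange.eval_basis_self hinj hz
            rw [id] at this
            rw [this]
            exact zero_le_one
          · have := Lagrange.eval_basis_of_ne (v := (id : ℝ → ℝ)) (Ne.symm hvz) hvZ
            rw [id] at this
            rw [this]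
        · exact he' v (Finset.mem_sdiff.2 ⟨hv, hvZ⟩))
    rw [map_add, map_smul, smul_eq_mul] at h1
    have := mul_neg_of_pos_of_neg he hneg
    linarith
  · intro z hz
    simp [hz]
  · intro P hP
    have hdeg : P.degree < (Z.card : ℕ) := by
      refine lt_of_le_of_lt degree_le_natDegree ?_
      rw [hZc]
      exact_mod_cast hP
    have h1 := Lagrange.eq_interpolate hinj hdeg
    conv_rhs => rw [h1, Lagrange.interpolate_apply, map_sum]
    apply Finset.sum_congr rfl
    intro z hz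
    have h2 : (fun z => if z ∈ Z then L (Lagrange.basis Z id z) else 0) z
        = L (Lagrange.basis Z id z) := if_pos hz
    rw [h2, ← smul_eq_C_mul, map_smul, smul_eq_mul, mul_comm]
    rfl

end Pool.Agent.Lib.MP_0430e4_lc.LPX
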