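import Pool.Agent.Lib.MP_0430e4_lc.LPX.Defs

/-!
# Descent to a polynomial with all zeros in the finite set
-/

set_option autoImplicit false

namespace Pool.Agent.Lib.MP_0430e4_lc.LPX

open Finset Polynomial

theorem NZ_monic (Z : Finset ℝ) : (NZ Z).Monic :=
  monic_prod_of_monic _ _ (fun z _ => monic_X_sub_C z)

theorem NZ_natDegree (Z : Finset ℝ) : (NZ Z).natDegree = Z.card := by
  unfold NZ
  rw [natDegree_prod_of_monic _ _ (fun z _ => monic_X_sub_C z)]
  simp

theorem NZ_eval (Z : Finset ℝ) (v : ℝ) : (NZ Z).eval v = ∏ z ∈ Z, (v - z) := by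
  unfold NZ
  rw [eval_prod]
  simp

theorem eq_NZ {N : ℝ[X]} (hN : N.Monic) (Z : Finset ℝ) (hd : N.natDegree = Z.card)
    (hz : ∀ z ∈ Z, N.eval z = 0) : N = NZ Z := by
  have hdeg : N.degree = (NZ Z).degree := by
    rw [degree_eq_natDegree hN.ne_zero, degree_eq_natDegree (NZ_monic Z).ne_zero, hd,
      NZ_natDegree]
  apply Polynomial.eq_of_degree_sub_lt_of_eval_finset_eq Z
  · have h1 := degree_sub_lt_left hdeg hN.ne_zero (by rw [hN.leadingCoeff, (NZ_monic Z).leadingCoeff])
    refine lt_of_lt_of_eq h1 ?_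
    rw [degree_eq_natDegree hN.ne_zero, hd]
  · intro z hzZ
    rw [hz z hzZ, NZ_eval, Finset.prod_eq_zero hzZ (sub_self z)]

/-- the zeros of `N` in `V` -/
noncomputable def Zs (V : Finset ℝ) (N : ℝ[X]) : Finset ℝ := V.filter fun v => N.eval v = 0

theorem card_Zs_le (V : Finset ℝ) {N : ℝ[X]} (hN : N.Monic) : (Zs V N).card ≤ N.natDegree := by
  apply card_le_degree_of_subset_roots
  intro z hz
  have hz' : z ∈ Zs V N := hz
  rw [mem_roots hN.ne_zero]
  exact (Finset.mem_filter.1 hz').2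

theorem descend_aux (V : Finset ℝ) (t : ℕ) (hV : t ≤ V.card) (L : ℝ[X] →ₗ[ℝ] ℝ)
    (hL : ∀ P : ℝ[X], P.natDegree < t → (∀ v ∈ V, 0 ≤ P.eval v) → 0 ≤ L P) (k : ℕ) :
    ∀ N : ℝ[X], N.Monic → N.natDegree = t → (∀ v ∈ V, 0 ≤ N.eval v) →
      t - (Zs V N).card ≤ k →
    ∃ Z : Finset ℝ, Z ⊆ V ∧ Z.card = t ∧ (∀ v ∈ V, 0 ≤ (NZ Z).eval v) ∧ L (NZ Z) ≤ L N := by
  induction k with
  | zero =>
    intro N hN hd hp hk
    have h1 : (Zs V N).card = t := le_antisymm (hd ▸ card_Zs_le V hN) (by omega)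
    have h2 : N = NZ (Zs V N) := eq_NZ hN _ (by rw [hd, h1]) (fun z hz => (mem_filter.1 hz).2)
    refine ⟨Zs V N, filter_subset _ _, h1, ?_, ?_⟩
    · rw [← h2]; exact hp
    · rw [← h2]
  | succ k ih =>
    intro N hN hd hp hk
    by_cases hc : t ≤ (Zs V N).card
    · have h1 : (Zs V N).card = t := le_antisymm (hd ▸ card_Zs_le V hN) hc
      have h2 : N = NZ (Zs V N) := eq_NZ hN _ (by rw [hd, h1]) (fun z hz => (mem_filter.1 hz).2)
      refine ⟨Zs V N, filter_subset _ _, h1, ?_, ?_⟩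
      · rw [← h2]; exact hp
      · rw [← h2]
    push Not at hc
    -- the direction
    obtain ⟨v1, hv1, hv1'⟩ : ∃ v ∈ V, v ∉ Zs V N := by
      by_contra hcon
      push Not at hcon
      have : V.card ≤ (Zs V N).card := card_le_card hcon
      omega
    have hh : (NZ (Zs V N)).eval v1 ≠ 0 := by
      rw [NZ_eval, Finset.prod_ne_zero_iff]
      intro z hz h0
      apply hv1'
      rw [sub_eq_zero] at h0
      rw [h0]
      exact hz
    have hdir : ∃ g : ℝ[X], g.natDegree < t ∧ L g ≤ 0 ∧ (∀ z ∈ Zs V N, g.eval z = 0) ∧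
        ∃ v ∈ V, g.eval v < 0 := by
      have hz0 : ∀ z ∈ Zs V N, (NZ (Zs V N)).eval z = 0 := by
        intro z hz
        rw [NZ_eval, Finset.prod_eq_zero hz (sub_self z)]
      have hdeg : (NZ (Zs V N)).natDegree < t := by rw [NZ_natDegree]; exact hc
      have hdeg' : (-(NZ (Zs V N))).natDegree < t := by rw [natDegree_neg]; exact hdeg
      rcases lt_trichotomy (L (NZ (Zs V N))) 0 with h | h | h
      · refine ⟨NZ (Zs V N), hdeg, h.le, hz0, ?_⟩
        by_contra hcon
        push Not at hcon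
        exact absurd (hL _ hdeg hcon) (not_le.2 h)
      · rcases lt_or_gt_of_ne hh with h' | h'
        · exact ⟨NZ (Zs V N), hdeg, h.le, hz0, v1, hv1, h'⟩
        · refine ⟨-(NZ (Zs V N)), hdeg', by rw [map_neg, h, neg_zero], ?_, v1, hv1, ?_⟩
          · intro z hz
            rw [eval_neg, hz0 z hz, neg_zero]
          · rw [eval_neg]
            linarith
      · refine ⟨-(NZ (Zs V N)), hdeg', by rw [map_neg]; linarith, ?_, ?_⟩
        · intro z hz
          rw [eval_neg, hz0 z hz, neg_zero]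
        · by_contra hcon
          push Not at hcon
          have := hL _ hdeg' hcon
          rw [map_neg] at this
          linarith
    obtain ⟨g, hg1, hg2, hg3, v2, hv2, hv2'⟩ := hdir
    obtain ⟨v0, hv0, hmin⟩ := Finset.exists_min_image (V.filter fun v => g.eval v < 0)
      (fun v => N.eval v / (-(g.eval v))) ⟨v2, mem_filter.2 ⟨hv2, hv2'⟩⟩
    rw [mem_filter] at hv0
    obtain ⟨hv0, hv0'⟩ := hv0
    set e : ℝ := N.eval v0 / (-(g.eval v0)) with he
    have he0 : 0 ≤ e := div_nonneg (hp v0 hv0) (by linarith)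
    have hdlt : (C e * g).degree < N.degree := by
      rw [degree_eq_natDegree hN.ne_zero, hd]
      by_cases hg0 : C e * g = 0
      · rw [hg0, degree_zero]
        exact WithBot.bot_lt_coe _
      · rw [degree_eq_natDegree hg0]
        have := natDegree_C_mul_le e g
        exact_mod_cast lt_of_le_of_lt this hg1
    have hN' : (N + C e * g).Monic := hN.add_of_left hdlt
    have hd' : (N + C e * g).natDegree = t := by
      rw [natDegree_add_eq_left_of_degree_lt hdlt, hd]
    have hp' : ∀ v ∈ V, 0 ≤ (N + C e * g).eval v := by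
      intro v hv
      rw [eval_add, eval_mul, eval_C]
      by_cases hgv : g.eval v < 0
      · have h1 := hmin v (mem_filter.2 ⟨hv, hgv⟩)
        rw [le_div_iff₀ (by linarith)] at h1
        linarith
      · push Not at hgv
        have := hp v hv
        positivity
    have hzero : (N + C e * g).eval v0 = 0 := by
      have hne : g.eval v0 ≠ 0 := hv0'.ne
      rw [eval_add, eval_mul, eval_C, he, div_neg, neg_mul, div_mul_cancel₀ _ hne, add_neg_cancel]
    have hcard : (Zs V N).card + 1 ≤ (Zs V (N + C e * g)).card := by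
      have h1 : v0 ∉ Zs V N := by
        intro h
        have := hg3 v0 h
        linarith
      rw [← card_insert_of_notMem h1]
      apply card_le_card
      intro z hz
      rw [mem_insert] at hz
      rcases hz with rfl | hz
      · exact mem_filter.2 ⟨hv0, hzero⟩
      · have h2 := mem_filter.1 hz
        refine mem_filter.2 ⟨h2.1, ?_⟩
        rw [eval_add, eval_mul, eval_C, h2.2, hg3 z hz]
        ring
    obtain ⟨Z, hZ1, hZ2, hZ3, hZ4⟩ := ih (N + C e * g) hN' hd' hp' (by omega)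
    refine ⟨Z, hZ1, hZ2, hZ3, le_trans hZ4 ?_⟩
    have : L (N + C e * g) = L N + e * L g := by
      rw [map_add, ← smul_eq_C_mul, map_smul, smul_eq_mul]
    rw [this]
    nlinarith

theorem descend (V : Finset ℝ) (t : ℕ) (hV : t ≤ V.card) (L : ℝ[X] →ₗ[ℝ] ℝ)
    (hL : ∀ P : ℝ[X], P.natDegree < t → (∀ v ∈ V, 0 ≤ P.eval v) → 0 ≤ L P)
    (N : ℝ[X]) (hN : N.Monic) (hd : N.natDegree = t) (hp : ∀ v ∈ V, 0 ≤ N.eval v) :
    ∃ Z : Finset ℝ, Z ⊆ V ∧ Z.card = t ∧ (∀ v ∈ V, 0 ≤ (NZ Z).eval v) ∧ L (NZ Z) ≤ L N :=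
  descend_aux V t hV L hL _ N hN hd hp le_rfl

end Pool.Agent.Lib.MP_0430e4_lc.LPX
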