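import Pool.Agent.Lib.MP_0430e4_lc.LPX.Defs

/-!
# Degree and leading coefficient of the Krawtchouk polynomials in `(n - 2 a)^2`
-/

set_option autoImplicit false

namespace Pool.Agent.Lib.MP_0430e4_lc.LPX

open Finset Polynomial

private theorem EO_fst_succ (n m : ℕ) : (EO n (m + 1)).1 =
    C (1 / (2 * (m : ℝ) + 2)) * (X * (EO n m).2 - C ((n : ℝ) - 2 * m) * (EO n m).1) := rfl

private theorem EO_snd_succ (n m : ℕ) : (EO n (m + 1)).2 =
    C (1 / (2 * (m : ℝ) + 3)) * ((EO n (m + 1)).1 - C ((n : ℝ) - 2 * m - 1) * (EO n m).2) := rfl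

theorem EO_deg (n m : ℕ) : (EO n m).1.natDegree ≤ m ∧ (EO n m).2.natDegree ≤ m := by
  induction m with
  | zero => simp [EO]
  | succ m ih =>
    obtain ⟨h1, h2⟩ := ih
    have hE : (EO n (m + 1)).1.natDegree ≤ m + 1 := by
      rw [EO_fst_succ]
      refine (natDegree_C_mul_le _ _).trans ?_
      refine (natDegree_sub_le _ _).trans (max_le ?_ ?_)
      · refine natDegree_mul_le.trans ?_
        rw [natDegree_X]
        omega
      · exact (natDegree_C_mul_le _ _).trans (by omega)
    refine ⟨hE, ?_⟩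
    rw [EO_snd_succ]
    refine (natDegree_C_mul_le _ _).trans ?_
    exact (natDegree_sub_le _ _).trans (max_le hE ((natDegree_C_mul_le _ _).trans (by omega)))

theorem EO_lead (n m : ℕ) : (EO n m).1.coeff m = 1 / ((2 * m).factorial : ℝ) ∧
    (EO n m).2.coeff m = 1 / ((2 * m + 1).factorial : ℝ) := by
  induction m with
  | zero => simp [EO]
  | succ m ih =>
    obtain ⟨h1, h2⟩ := ih
    obtain ⟨d1, d2⟩ := EO_deg n m
    have z1 : (EO n m).1.coeff (m + 1) = 0 := coeff_eq_zero_of_natDegree_lt (by omega)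
    have z2 : (EO n m).2.coeff (m + 1) = 0 := coeff_eq_zero_of_natDegree_lt (by omega)
    have e1 : (2 * (m + 1)).factorial = (2 * m + 2) * (2 * m + 1).factorial := by
      rw [show 2 * (m + 1) = (2 * m + 1) + 1 by ring, Nat.factorial_succ]
    have e2 : (2 * (m + 1) + 1).factorial = (2 * m + 3) * (2 * (m + 1)).factorial := by
      rw [Nat.factorial_succ]
      ring
    have hE : (EO n (m + 1)).1.coeff (m + 1) = 1 / ((2 * (m + 1)).factorial : ℝ) := by
      rw [EO_fst_succ, coeff_C_mul, coeff_sub, coeff_X_mul, coeff_C_mul, z1, h2, mul_zero,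
        sub_zero, e1]
      push_cast
      rw [one_div_mul_one_div]
    refine ⟨hE, ?_⟩
    rw [EO_snd_succ, coeff_C_mul, coeff_sub, coeff_C_mul, z2, hE, mul_zero, sub_zero, e2]
    push_cast
    rw [one_div_mul_one_div]

end Pool.Agent.Lib.MP_0430e4_lc.LPX
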