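import Pool.Agent.Lib.MP_0430e4_lc.LPX.KREV
import Pool.Agent.Lib.MP_0430e4_lc.LPX.KRDEG
import Pool.Agent.Lib.MP_0430e4_lc.LPX.VAN

/-!
# The square of a Krawtchouk polynomial
-/

set_option autoImplicit false

namespace Pool.Agent.Lib.MP_0430e4_lc.LPX

open Finset Filter Topology Polynomial
open Tensor (chi flp)
open Impr (wt lpBound)
open LPL (hat Ev NC Lf)

private theorem normk_monic1 (n m : ℕ) :
    (C ((2 * m).factorial : ℝ) * (EO n m).1).Monic ∧
      (C ((2 * m).factorial : ℝ) * (EO n m).1).natDegree = m := by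
  have hf : ((2 * m).factorial : ℝ) ≠ 0 := by
    exact_mod_cast Nat.factorial_ne_zero _
  have hle : (C ((2 * m).factorial : ℝ) * (EO n m).1).natDegree ≤ m :=
    (Polynomial.natDegree_C_mul_le _ _).trans (EO_deg n m).1
  have hc : (C ((2 * m).factorial : ℝ) * (EO n m).1).coeff m = 1 := by
    rw [Polynomial.coeff_C_mul, (EO_lead n m).1]
    field_simp
  refine ⟨Polynomial.monic_of_natDegree_le_of_coeff_eq_one m hle hc, ?_⟩
  apply le_antisymm hle
  apply Polynomial.le_natDegree_of_ne_zero
  rw [hc]
  exact one_ne_zero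

theorem monicK (n m : ℕ) :
    ((C ((2 * m).factorial : ℝ) * (EO n m).1) ^ 2).Monic ∧
      ((C ((2 * m).factorial : ℝ) * (EO n m).1) ^ 2).natDegree = 2 * m := by
  obtain ⟨h1, h2⟩ := normk_monic1 n m
  refine ⟨h1.pow 2, ?_⟩
  rw [h1.natDegree_pow, h2]

private theorem normk_wt_xor {n : ℕ} (y y' : Fin n → Bool) :
    wt (fun i => xor (y i) (y' i)) ≤ wt y + wt y' := by
  unfold wt
  refine (Finset.card_le_card ?_).trans (Finset.card_union_le _ _)
  intro i
  simp only [Finset.mem_filter, Finset.mem_univ, true_and, Finset.mem_union]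
  cases y i <;> cases y' i <;> simp

private theorem normk_xor_zero {n : ℕ} (y y' : Fin n → Bool) :
    wt (fun i => xor (y i) (y' i)) = 0 ↔ y = y' := by
  constructor
  · intro h
    have := van_wt_zero h
    funext i
    have h2 := congrFun this i
    revert h2
    cases y i <;> cases y' i <;> simp
  · intro h
    subst h
    unfold wt
    simp

/-- `κ_k(x) (-1)^(wt x) = κ_{n-k}(x)`, orthogonality `∑_x κ_j κ_k = 2^n C(n,k) [j = k]`
(`LPL.sum_chi_mul`). -/
theorem normK {n m : ℕ} (h : 4 * m < n) :
    LY n ((C ((2 * m).factorial : ℝ) * (EO n m).1) ^ 2)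
      = n.choose (2 * m) * ((2 * m).factorial : ℝ) ^ 2 := by
  show (2 / 2 ^ n) * ∑ x : Fin n → Bool, (if Even (wt x) then
    ((C ((2 * m).factorial : ℝ) * (EO n m).1) ^ 2).eval (yv n (wt x)) else 0)
      = n.choose (2 * m) * ((2 * m).factorial : ℝ) ^ 2
  have h1 : ∀ x : Fin n → Bool, (if Even (wt x) then
      ((C ((2 * m).factorial : ℝ) * (EO n m).1) ^ 2).eval (yv n (wt x)) else 0)
      = ((2 * m).factorial : ℝ) ^ 2 * ∑ y : Fin n → Bool, ∑ y' : Fin n → Bool,
        (if wt y = 2 * m then (if wt y' = 2 * m then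
          (if Even (wt x) then chi x (fun i => xor (y i) (y' i)) else 0) else 0) else 0) := by
    intro x
    rw [Polynomial.eval_pow, Polynomial.eval_mul, Polynomial.eval_C, ← kr_even n m x]
    by_cases hx : Even (wt x)
    · simp only [if_pos hx]
      rw [mul_pow]
      congr 1
      rw [sq, Finset.sum_mul_sum]
      apply Finset.sum_congr rfl
      intro y _
      apply Finset.sum_congr rfl
      intro y' _
      have e : chi x (fun i => xor (y i) (y' i)) = chi x y * chi x y' := by
        rw [Tensor.chi_comm, Tensor.chi_xor, Tensor.chi_comm y x, Tensor.chi_comm y' x]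
      rw [e]
      split_ifs <;> ring
    · simp only [if_neg hx]
      simp
  simp only [h1]
  rw [← Finset.mul_sum]
  have h2 : ∑ x : Fin n → Bool, ∑ y : Fin n → Bool, ∑ y' : Fin n → Bool,
        (if wt y = 2 * m then (if wt y' = 2 * m then
          (if Even (wt x) then chi x (fun i => xor (y i) (y' i)) else 0) else 0) else 0)
      = ∑ y : Fin n → Bool, (if wt y = 2 * m then (2 : ℝ) ^ n / 2 else 0) := by
    rw [Finset.sum_comm]
    apply Finset.sum_congr rfl
    intro y _
    rw [Finset.sum_comm]
    by_cases hy : wt y = 2 * m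
    · simp only [hy, if_true]
      rw [Finset.sum_eq_single y]
      · simp only [hy, if_true]
        rw [van_sum_even_chi _ (by
          have : wt (fun i => xor (y i) (y i)) = 0 := (normk_xor_zero y y).2 rfl
          omega), if_pos ((normk_xor_zero y y).2 rfl)]
      · intro y' _ hne
        by_cases hy' : wt y' = 2 * m
        · simp only [hy', if_true]
          rw [van_sum_even_chi _ (by
            have := normk_wt_xor y y'
            omega), if_neg]
          intro hc
          exact hne ((normk_xor_zero y y').1 hc).symm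
        · simp [hy']
      · intro hc
        exact absurd (Finset.mem_univ _) hc
    · simp [hy]
  rw [h2]
  have h3 : ∑ y : Fin n → Bool, (if wt y = 2 * m then (2 : ℝ) ^ n / 2 else 0)
      = (2 : ℝ) ^ n / 2 * n.choose (2 * m) := by
    rw [← van_card_wt n (2 * m), Finset.mul_sum]
    apply Finset.sum_congr rfl
    intro y _
    split_ifs <;> ring
  rw [h3]
  field_simp

end Pool.Agent.Lib.MP_0430e4_lc.LPX
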