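import Pool.Agent.Lib.MP_0430e4_lc.LPX.Defs
import Pool.Agent.Lib.MP_0430e4_lc.LPL.Exist

/-!
# Positivity of the functional in the variable `Y`
-/

set_option autoImplicit false

namespace Pool.Agent.Lib.MP_0430e4_lc.LPX

open Finset Filter Topology Polynomial
open Tensor (chi flp)
open Impr (wt lpBound)
open LPL (hat Ev NC Lf)

/-- compose `P` with `(n - 2 X)^2` and use `LPL.exists_W` -/
theorem LY_nonneg {n d T k : ℕ} {R : ℝ} (h : NC n d T k R) (P : ℝ[X]) (hP : P.natDegree ≤ T)
    (hpos : ∀ a ∈ Ev n d, 0 ≤ P.eval (yv n a)) : 0 ≤ LY n P := by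
  obtain ⟨W, h1, h2, h3, h4, h5⟩ := LPL.exists_W h
  set Q : ℝ[X] := P.comp ((C (n : ℝ) - C 2 * X) ^ 2) with hQ
  have hdeg : ((C (n : ℝ) - C 2 * X) ^ 2 : ℝ[X]).natDegree ≤ 2 := by
    refine natDegree_pow_le.trans ?_
    have : (C (n : ℝ) - C 2 * X : ℝ[X]).natDegree ≤ 1 := by
      refine (natDegree_sub_le _ _).trans (max_le (by simp) ?_)
      exact (natDegree_C_mul_le _ _).trans (by simp)
    omega
  have hQd : Q.natDegree ≤ 2 * T := by
    rw [hQ]
    refine natDegree_comp_le.trans ?_
    calc P.natDegree * ((C (n : ℝ) - C 2 * X) ^ 2 : ℝ[X]).natDegree ≤ T * 2 :=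
          Nat.mul_le_mul hP hdeg
      _ = 2 * T := Nat.mul_comm _ _
  have hQe : ∀ a : ℕ, Q.eval (a : ℝ) = P.eval (yv n a) := by
    intro a
    rw [hQ, eval_comp]
    simp [yv]
  have h6 := h5 Q hQd
  have h7 : Lf n Q = LY n P := by
    change (2 / 2 ^ n : ℝ) * _ = (2 / 2 ^ n : ℝ) * _
    congr 1
    apply Finset.sum_congr rfl
    intro x _
    rw [hQe]
  rw [← h7, ← h6]
  apply Finset.sum_nonneg
  intro x _
  rw [hQe]
  by_cases hx : wt x ∈ Ev n d
  · exact mul_nonneg (h1 _) (hpos _ hx)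
  · have hxn : wt x ≤ n := by
      have := Finset.card_filter_le (univ : Finset (Fin n)) (fun i => x i = true)
      rw [Finset.card_univ, Fintype.card_fin] at this
      exact this
    have : W (wt x) = 0 := by
      by_cases e1 : Even (wt x)
      · by_cases e2 : wt x < d
        · exact h2 _ e2
        · apply h3
          by_contra e3
          apply hx
          unfold Ev
          rw [Finset.mem_filter, Finset.mem_range]
          exact ⟨by omega, e1, by omega, by omega⟩
      · exact h4 _ e1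
    rw [this, zero_mul]

end Pool.Agent.Lib.MP_0430e4_lc.LPX
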