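import Pool.Agent.Lib.MP_0430e4_lc.LPX.EXC
import Pool.Agent.Lib.MP_0430e4_lc.LPX.STEPA
import Pool.Agent.Lib.MP_0430e4_lc.LPX.NORMK

set_option autoImplicit false

namespace Pool.Agent.Lib.MP_0430e4_lc.LPX

open Finset Filter Topology Polynomial
open Tensor (chi flp)
open Impr (wt lpBound)
open LPL (hat Ev NC Lf)

/-- `V` = the values of `yv n` on `Ev n d`; `V.card ≥ 2 m` because `4 T ≤ n - 2 d`;
`N = (C (2m)! * (EO n m).1)^2`. `NZ Z` is positive at the `yv n a` not in `V`, which are larger
than all elements of `V`. -/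
theorem exists_extr {n d T k m : ℕ} {R : ℝ} (h : NC n d T k R) (hm : 1 ≤ m)
    (hmT : 2 * m ≤ T) : ∃ (Z : Finset ℝ) (w : ℝ → ℝ), Extr n d (2 * m) Z w := by
  classical
  set V : Finset ℝ := (Ev n d).image (yv n) with hV
  have hn := h.hn
  have hd := h.hd
  have hdn := h.hdn
  have hcard := h.hcard
  have hdt := h.hdt
  have hV2 : 2 * m ≤ V.card := by
    have h1 : ((range (2 * m)).image fun i => yv n (d + 2 * i)) ⊆ V := by
      intro y hy
      rw [mem_image] at hy
      obtain ⟨i, hi, rfl⟩ := hy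
      rw [mem_range] at hi
      rw [hV, mem_image]
      refine ⟨d + 2 * i, ?_, rfl⟩
      rw [Ev, mem_filter, mem_range]
      refine ⟨by omega, ?_, by omega, by omega⟩
      exact hd.add (even_two_mul i)
    have h2 : ((range (2 * m)).image fun i => yv n (d + 2 * i)).card = 2 * m := by
      rw [card_image_of_injOn, card_range]
      intro i hi j hj hij
      rw [mem_coe, mem_range] at hi hj
      simp only [yv] at hij
      have hi1 : 2 * (d + 2 * i) ≤ n := by omega
      have hj1 : 2 * (d + 2 * j) ≤ n := by omega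
      have hi2 : (0 : ℝ) ≤ (n : ℝ) - 2 * ((d + 2 * i : ℕ) : ℝ) := by
        have : ((2 * (d + 2 * i) : ℕ) : ℝ) ≤ n := by exact_mod_cast hi1
        push_cast at this ⊢
        linarith
      have hj2 : (0 : ℝ) ≤ (n : ℝ) - 2 * ((d + 2 * j : ℕ) : ℝ) := by
        have : ((2 * (d + 2 * j) : ℕ) : ℝ) ≤ n := by exact_mod_cast hj1
        push_cast at this ⊢
        linarith
      have h3 := (sq_eq_sq₀ hi2 hj2).mp hij
      push_cast at h3
      have h4 : (i : ℝ) = j := by linarith
      exact_mod_cast h4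
    calc 2 * m = ((range (2 * m)).image fun i => yv n (d + 2 * i)).card := h2.symm
      _ ≤ V.card := card_le_card h1
  have hL : ∀ P : ℝ[X], P.natDegree < 2 * m → (∀ v ∈ V, 0 ≤ P.eval v) → 0 ≤ LY n P := by
    intro P hP hpos
    apply LY_nonneg h P (by omega)
    intro a ha
    exact hpos _ (mem_image_of_mem _ ha)
  obtain ⟨hN1, hN2⟩ := monicK n m
  obtain ⟨Z, w, hZV, hZc, hZp, hZL, hw, hws, hwm⟩ := exchange V (2 * m) hV2 (LY n) hL
    ((C ((2 * m).factorial : ℝ) * (EO n m).1) ^ 2) hN1 hN2 (by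
      intro v _
      rw [eval_pow]
      exact sq_nonneg _)
  refine ⟨Z, w, ?_, hZc, hw, hws, hwm, ?_, ?_⟩
  · intro z hz
    have h1 := hZV hz
    rw [hV, mem_image] at h1
    obtain ⟨a, ha, rfl⟩ := h1
    exact ⟨a, ha, rfl⟩
  · rw [← normK (n := n) (m := m) (by omega)]
    exact hZL
  · intro a ha han
    by_cases hEv : d ≤ a ∧ a + d ≤ n
    · apply hZp
      rw [hV]
      apply mem_image_of_mem
      rw [Ev, mem_filter, mem_range]
      exact ⟨by omega, ha, hEv.1, hEv.2⟩
    · rw [NZ, eval_prod]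
      apply prod_nonneg
      intro z hz
      have h1 := hZV hz
      rw [hV, mem_image] at h1
      obtain ⟨b, hb, rfl⟩ := h1
      rw [Ev, mem_filter, mem_range] at hb
      rw [eval_sub, eval_X, eval_C, yv, yv, sub_nonneg]
      have hdn' : 2 * (d : ℝ) ≤ n := by exact_mod_cast hdn
      have hb1 : (d : ℝ) ≤ b := by exact_mod_cast hb.2.2.1
      have hb2 : (b : ℝ) + d ≤ n := by exact_mod_cast hb.2.2.2
      have h2 : ((n : ℝ) - 2 * b) ^ 2 ≤ ((n : ℝ) - 2 * d) ^ 2 := by
        apply sq_le_sq'
        · linarith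
        · linarith
      refine h2.trans ?_
      rcases not_and_or.mp hEv with h3 | h3
      · have h4 : (a : ℝ) ≤ d := by
          have : a ≤ d := by omega
          exact_mod_cast this
        apply pow_le_pow_left₀
        · linarith
        · linarith
      · have h4 : (n : ℝ) ≤ a + d := by
          have : n ≤ a + d := by omega
          exact_mod_cast this
        have h5 : ((n : ℝ) - 2 * a) ^ 2 = (2 * (a : ℝ) - n) ^ 2 := by ring
        rw [h5]
        apply pow_le_pow_left₀
        · linarith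
        · linarith

end Pool.Agent.Lib.MP_0430e4_lc.LPX
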