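import Pool.Agent.Lib.MP_0430e4_lc.LPL.Feas0

/-!
# Feasible solutions from radial weights
-/

set_option autoImplicit false

namespace Pool.Agent.Lib.MP_0430e4_lc.LPX

open Finset Filter Topology Polynomial
open Tensor (chi flp)
open Impr (wt lpBound)
open LPL (hat)

/-- `β = δ_0 + M W(wt x)` -/
theorem lp_ge_of_hat {n d : ℕ} (W : ℕ → ℝ) (M : ℝ) (hM : 0 ≤ M) (hd : 1 ≤ d)
    (hW : ∀ a, 0 ≤ W a) (hlow : ∀ a, a < d → W a = 0)
    (hsum : ∑ x : Fin n → Bool, W (wt x) = 1)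
    (hhat : ∀ y : Fin n → Bool, -1 ≤ M * hat (fun x => W (wt x)) y) : M ≤ lpBound n d := by
  have := LPL.lp_ge_general (n := n) (d := d) (M := M) (fun x => W (wt x)) hM hd
    (fun x => hW _) (fun x hx => hlow _ hx) hsum hhat
  linarith

end Pool.Agent.Lib.MP_0430e4_lc.LPX
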