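import Pool.Agent.Lib.MP_0430e4_lc.LPX.Defs
import Pool.Agent.Lib.MP_0430e4_lc.LPL.CUB1

/-!
# Krawtchouk polynomials on the cube: three term recurrence
-/

set_option autoImplicit false

namespace Pool.Agent.Lib.MP_0430e4_lc.LPX

open Finset Filter Topology Polynomial
open Tensor (chi flp)
open Impr (wt lpBound)
open LPL (hat Ev NC Lf)

/-- The Krawtchouk function of degree `k`. -/
noncomputable def kap (n k : ℕ) (x : Fin n → Bool) : ℝ :=
  ∑ y : Fin n → Bool, (if wt y = k then chi x y else 0)

theorem kap_eq_hat (n k : ℕ) (x : Fin n → Bool) :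
    kap n k x = hat (fun y => if wt y = k then (1 : ℝ) else 0) x := by
  unfold kap hat
  apply Finset.sum_congr rfl
  intro y _
  rw [Tensor.chi_comm x y, ite_mul, one_mul, zero_mul]

private theorem sum_ite_c {n : ℕ} (p : Fin n → Prop) [DecidablePred p] (a : ℝ) :
    ∑ i, (if p i then a else 0) = ((univ.filter p).card : ℝ) * a := by
  rw [← Finset.sum_filter, Finset.sum_const, nsmul_eq_mul]

theorem kap_rec (n k : ℕ) (x : Fin n → Bool) :
    ((n : ℝ) - 2 * wt x) * kap n (k + 1) x
      = ((k : ℝ) + 2) * kap n (k + 2) x + ((n : ℝ) - k) * kap n k x := by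
  rw [kap_eq_hat, kap_eq_hat, kap_eq_hat, ← LPL.hat_adj]
  unfold hat
  rw [Finset.mul_sum, Finset.mul_sum, ← Finset.sum_add_distrib]
  apply Finset.sum_congr rfl
  intro y _
  have h1 : ∀ i, (if wt (flp y i) = k + 1 then (1 : ℝ) else 0)
      = (if y i = true then (if wt y = k + 2 then (1 : ℝ) else 0) else 0)
        + (if y i = false then (if wt y = k then (1 : ℝ) else 0) else 0) := by
    intro i
    cases h : y i
    · have h2 := LPL.wt_flp_false y i h
      rw [h2]
      simp
    · have h2 := LPL.wt_flp_true y i h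
      have h3 : wt (flp y i) = k + 1 ↔ wt y = k + 2 := by omega
      simp [h3]
  simp only [h1]
  rw [Finset.sum_add_distrib, sum_ite_c, sum_ite_c, LPL.card_true, LPL.card_false]
  by_cases e1 : wt y = k + 2
  · have e2 : ¬ wt y = k := by omega
    rw [if_pos e1, if_neg e2, e1]
    push_cast
    ring
  · by_cases e2 : wt y = k
    · rw [if_neg e1, if_pos e2, e2]
      ring
    · rw [if_neg e1, if_neg e2]
      ring

theorem kap_zero (n : ℕ) (x : Fin n → Bool) : kap n 0 x = 1 := by
  unfold kap
  have h1 : ∀ y : Fin n → Bool, (if wt y = 0 then chi x y else 0)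
      = if y = (fun _ => false) then (1 : ℝ) else 0 := by
    intro y
    by_cases h : y = fun _ => false
    · subst h
      have : wt (fun _ : Fin n => false) = 0 := by simp [wt]
      rw [if_pos this, if_pos rfl, Tensor.chi_zero_right]
    · rw [if_neg h]
      have : wt y ≠ 0 := by
        intro h0
        apply h
        unfold wt at h0
        rw [Finset.card_eq_zero, Finset.filter_eq_empty_iff] at h0
        funext i
        have := h0 (Finset.mem_univ i)
        simpa using this
      rw [if_neg this]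
  simp only [h1]
  simp

theorem kap_one (n : ℕ) (x : Fin n → Bool) : kap n 1 x = (n : ℝ) - 2 * wt x := by
  rw [kap_eq_hat]
  have h0 : kap n 0 x = 1 := kap_zero n x
  rw [kap_eq_hat] at h0
  have h1 := LPL.hat_adj (fun y : Fin n → Bool => if wt y = 0 then (1 : ℝ) else 0) x
  rw [h0, mul_one] at h1
  rw [← h1]
  congr 1
  funext y
  have h1 : ∀ i, (if wt (flp y i) = 0 then (1 : ℝ) else 0)
      = (if y i = true then (if wt y = 1 then (1 : ℝ) else 0) else 0) := by
    intro i
    cases h : y i
    · have h2 := LPL.wt_flp_false y i h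
      rw [h2]
      simp
    · have h2 := LPL.wt_flp_true y i h
      have h3 : wt (flp y i) = 0 ↔ wt y = 1 := by omega
      simp [h3]
  simp only [h1]
  rw [sum_ite_c, LPL.card_true]
  by_cases e1 : wt y = 1
  · rw [if_pos e1, e1]; simp
  · rw [if_neg e1]; simp

private theorem kr_both (n m : ℕ) (x : Fin n → Bool) :
    kap n (2 * m) x = (EO n m).1.eval (yv n (wt x)) ∧
      kap n (2 * m + 1) x = ((n : ℝ) - 2 * wt x) * (EO n m).2.eval (yv n (wt x)) := by
  induction m with
  | zero =>
    refine ⟨?_, ?_⟩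
    · rw [mul_zero, kap_zero]
      simp [EO]
    · rw [mul_zero, zero_add, kap_one]
      simp [EO]
  | succ m ih =>
    obtain ⟨i1, i2⟩ := ih
    have h1 := kap_rec n (2 * m) x
    have h2 := kap_rec n (2 * m + 1) x
    rw [i1, i2] at h1
    have e1 : kap n (2 * (m + 1)) x = (EO n (m + 1)).1.eval (yv n (wt x)) := by
      have e0 : 2 * (m + 1) = 2 * m + 2 := by ring
      rw [e0]
      have hne : (2 * (m : ℝ) + 2) ≠ 0 := by positivity
      simp only [EO, eval_mul, eval_C, eval_sub, eval_X]
      field_simp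
      push_cast at h1
      unfold yv at h1 ⊢
      linarith
    refine ⟨e1, ?_⟩
    have e0 : 2 * (m + 1) + 1 = 2 * m + 1 + 2 := by ring
    have e2 : 2 * m + 1 + 1 = 2 * (m + 1) := by ring
    rw [e2, e1, i2] at h2
    rw [e0]
    have hne : (2 * (m : ℝ) + 3) ≠ 0 := by positivity
    have h3 : (EO n (m + 1)).2 = C (1 / (2 * (m : ℝ) + 3)) *
      ((EO n (m + 1)).1 - C ((n : ℝ) - 2 * m - 1) * (EO n m).2) := rfl
    rw [h3]
    simp only [eval_mul, eval_C, eval_sub]
    push_cast at h2
    have h4 : (2 * (m : ℝ) + 3) * kap n (2 * m + 1 + 2) x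
        = ((n : ℝ) - 2 * wt x) * ((EO n (m + 1)).1.eval (yv n (wt x))
          - ((n : ℝ) - 2 * m - 1) * (EO n m).2.eval (yv n (wt x))) := by
      linarith
    rw [← mul_right_inj' hne, h4]
    field_simp

/-- Krawtchouk functions of even degree. -/
theorem kr_even (n m : ℕ) (x : Fin n → Bool) :
    ∑ y : Fin n → Bool, (if wt y = 2 * m then chi x y else 0)
      = (EO n m).1.eval (yv n (wt x)) := (kr_both n m x).1

/-- Krawtchouk functions of odd degree. -/
theorem kr_odd (n m : ℕ) (x : Fin n → Bool) :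
    ∑ y : Fin n → Bool, (if wt y = 2 * m + 1 then chi x y else 0)
      = ((n : ℝ) - 2 * wt x) * (EO n m).2.eval (yv n (wt x)) := (kr_both n m x).2

end Pool.Agent.Lib.MP_0430e4_lc.LPX
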