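import Pool.Agent.Lib.MP_0430e4_lc.LPX.Defs
import Pool.Agent.Lib.MP_0430e4_lc.LPL.CUB2

/-!
# Parseval bound for radial functions
-/

set_option autoImplicit false

namespace Pool.Agent.Lib.MP_0430e4_lc.LPX

open Finset Polynomial
open Tensor (chi flp)
open Impr (wt)
open LPL (hat)

private theorem card_wt_eq (n k : ℕ) :
    (univ.filter fun x : Fin n → Bool => wt x = k).card = n.choose k := by
  classical
  rw [← Fintype.card_fin n, ← Finset.card_univ, ← Finset.card_powersetCard, Finset.card_univ,
    Fintype.card_fin]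
  refine Finset.card_bij (fun x _ => univ.filter fun i => x i = true) ?_ ?_ ?_
  · intro x hx
    rw [Finset.mem_filter] at hx
    rw [Finset.mem_powersetCard]
    exact ⟨Finset.subset_univ _, hx.2⟩
  · intro x _ y _ hxy
    funext i
    have := Finset.ext_iff.mp hxy i
    simp only [Finset.mem_filter, Finset.mem_univ, true_and] at this
    cases hx : x i <;> cases hy : y i <;> simp_all
  · intro s hs
    rw [Finset.mem_powersetCard] at hs
    refine ⟨fun i => decide (i ∈ s), ?_, ?_⟩
    · rw [Finset.mem_filter]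
      refine ⟨Finset.mem_univ _, ?_⟩
      unfold wt
      rw [← hs.2]
      congr 1
      ext i
      simp
    · ext i
      simp

/-- Parseval and radiality -/
theorem hat_sq_le {n : ℕ} (φ : ℕ → ℝ) (y : Fin n → Bool) :
    (n.choose (wt y) : ℝ) * hat (fun x => φ (wt x)) y ^ 2
      ≤ 2 ^ n * ∑ x : Fin n → Bool, φ (wt x) ^ 2 := by
  classical
  have h1 := LPL.parseval (n := n) (fun x => φ (wt x)) (fun x => φ (wt x))
  have h2 : ∑ x : Fin n → Bool, φ (wt x) ^ 2 = ∑ x : Fin n → Bool, φ (wt x) * φ (wt x) :=
    Finset.sum_congr rfl fun x _ => by ring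
  rw [h2, ← h1]
  calc (n.choose (wt y) : ℝ) * hat (fun x => φ (wt x)) y ^ 2
      = ∑ y' ∈ univ.filter (fun x : Fin n → Bool => wt x = wt y),
          hat (fun x => φ (wt x)) y' * hat (fun x => φ (wt x)) y' := by
        rw [← card_wt_eq n (wt y), ← nsmul_eq_mul, ← Finset.sum_const]
        apply Finset.sum_congr rfl
        intro y' hy'
        rw [Finset.mem_filter] at hy'
        rw [LPL.hat_radial φ y' y hy'.2]
        ring
    _ ≤ ∑ y', hat (fun x => φ (wt x)) y' * hat (fun x => φ (wt x)) y' := by
        apply Finset.sum_le_sum_of_subset_of_nonneg (Finset.filter_subset _ _)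
        intro i _ _
        exact mul_self_nonneg _

end Pool.Agent.Lib.MP_0430e4_lc.LPX
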