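import Pool.Agent.Lib.MP_0430e4_lc.LPX.WR
import Pool.Agent.Lib.MP_0430e4_lc.LPL.CUB2
import Pool.Agent.Lib.MP_0430e4_lc.LPL.Tail

/-!
# The tail estimate for the extremal quadrature
-/

set_option autoImplicit false

namespace Pool.Agent.Lib.MP_0430e4_lc.LPX

open Finset Polynomial
open Impr (wt)
open LPL (Lf)

private theorem sum_range_two_mul (f : ℕ → ℝ) (N : ℕ) :
    ∑ j ∈ range (2 * N), f j = ∑ i ∈ range N, (f (2 * i) + f (2 * i + 1)) := by
  induction N with
  | zero => simp
  | succ N ih =>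
    rw [show 2 * (N + 1) = 2 * N + 1 + 1 by ring, Finset.sum_range_succ, Finset.sum_range_succ,
      Finset.sum_range_succ, ih]
    ring

/-- every polynomial is an even part plus an odd part about `n / 2` -/
theorem split_poly (n : ℕ) (P : ℝ[X]) : ∃ A B : ℝ[X], 2 * A.natDegree ≤ P.natDegree ∧
    ∀ a : ℝ, P.eval a = A.eval (((n : ℝ) - 2 * a) ^ 2)
      + ((n : ℝ) - 2 * a) * B.eval (((n : ℝ) - 2 * a) ^ 2) := by
  set Q : ℝ[X] := P.comp (C ((n : ℝ) / 2) - C (1 / 2) * X) with hQ
  have hlin : (C ((n : ℝ) / 2) - C (1 / 2) * X : ℝ[X]).natDegree ≤ 1 := by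
    refine (natDegree_sub_le _ _).trans ?_
    rw [natDegree_C]
    exact max_le (Nat.zero_le _) ((natDegree_C_mul_le _ _).trans natDegree_X_le)
  have hdeg : Q.natDegree ≤ P.natDegree := by
    refine natDegree_comp_le.trans ?_
    calc P.natDegree * (C ((n : ℝ) / 2) - C (1 / 2) * X : ℝ[X]).natDegree
        ≤ P.natDegree * 1 := Nat.mul_le_mul_left _ hlin
      _ = P.natDegree := Nat.mul_one _
  set N := Q.natDegree / 2 + 1 with hN
  refine ⟨∑ i ∈ range N, C (Q.coeff (2 * i)) * X ^ i,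
    ∑ i ∈ range N, C (Q.coeff (2 * i + 1)) * X ^ i, ?_, ?_⟩
  · have h1 : (∑ i ∈ range N, C (Q.coeff (2 * i)) * X ^ i : ℝ[X]).natDegree
        ≤ Q.natDegree / 2 := by
      refine natDegree_sum_le_of_forall_le _ _ fun i hi => ?_
      refine (natDegree_C_mul_X_pow_le _ _).trans ?_
      have := Finset.mem_range.1 hi
      omega
    omega
  · intro a
    have h1 : P.eval a = Q.eval ((n : ℝ) - 2 * a) := by
      rw [hQ, eval_comp]
      congr 1
      simp
      ring
    rw [h1, eval_eq_sum_range' (n := 2 * N) (by omega) _, sum_range_two_mul, eval_finsetSum,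
      eval_finsetSum, Finset.sum_add_distrib, Finset.mul_sum]
    congr 1
    · refine Finset.sum_congr rfl fun i _ => ?_
      simp [pow_mul]
    · refine Finset.sum_congr rfl fun i _ => ?_
      simp only [eval_mul, eval_C, eval_pow, eval_X]
      rw [pow_succ, pow_mul]
      ring

private theorem even_odd_sum {n : ℕ} (hn : Even n) (φ : ℝ → ℝ) :
    ∑ x : Fin n → Bool, (if Even (wt x) then ((n : ℝ) - 2 * wt x) * φ (((n : ℝ) - 2 * wt x) ^ 2)
      else 0) = 0 := by
  set S := ∑ x : Fin n → Bool, (if Even (wt x) then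
    ((n : ℝ) - 2 * wt x) * φ (((n : ℝ) - 2 * wt x) ^ 2) else 0) with hS
  have h1 : S = -S := by
    rw [hS, ← Finset.sum_neg_distrib]
    refine Finset.sum_nbij' (fun x i => !(x i)) (fun x i => !(x i)) (by simp) (by simp)
      (by intro x _; funext i; simp) (by intro x _; funext i; simp) ?_
    intro x _
    have h2 : wt (fun i => !(x i)) = n - wt x := LPL.wt_compl x
    have h3 : wt x ≤ n := LPL.wt_le x
    have h4 : Even (n - wt x) ↔ Even (wt x) := by
      rw [Nat.even_sub h3]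
      simp [hn]
    simp only [h2, h4]
    split_ifs
    · rw [Nat.cast_sub h3]
      have e1 : (n : ℝ) - 2 * ((n : ℝ) - wt x) = -((n : ℝ) - 2 * wt x) := by ring
      rw [e1, neg_sq]
      ring
    · simp
  linarith

theorem Wr_sq {n d m : ℕ} {Z : Finset ℝ} {w : ℝ → ℝ} (h : Extr n d (2 * m) Z w)
    (hn : Even n) (hn1 : 1 ≤ n) (hm : 1 ≤ m) (hdn : 2 * d ≤ n) (hd4 : n ≤ 4 * d)
    (hD : ((n : ℝ) - 2 * d) ^ 2 ≤ 4 * n * (2 * m - 1)) :
    ∑ x : Fin n → Bool, Wr n d w (wt x) ^ 2 ≤ 64 * ((n : ℝ) + 1) ^ 2 / 2 ^ n := by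
  refine LPL.tail (d := d) (t := 2 * m - 1) (Wr n d w) hn1 hd4 hdn ?_ (fun a => Wr_nonneg h a)
    (fun a ha => Wr_low w a ha) (fun a ha => Wr_hi w a ha) ?_
  · rw [Nat.cast_sub (by omega)]
    push_cast
    exact hD
  · intro P hP
    obtain ⟨A, B, hA, hAB⟩ := split_poly n P
    have hAd : A.natDegree < 2 * m := by omega
    have h1 : ∑ x : Fin n → Bool, Wr n d w (wt x) * P.eval (wt x : ℝ) = LY n A := by
      have e1 : ∀ x : Fin n → Bool, Wr n d w (wt x) * P.eval (wt x : ℝ)
          = Wr n d w (wt x) * A.eval (yv n (wt x))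
            + Wr n d w (wt x) * (((n : ℝ) - 2 * wt x) * B.eval (yv n (wt x))) := by
        intro x
        rw [hAB (wt x : ℝ)]
        simp only [yv]
        ring
      simp only [e1]
      rw [Finset.sum_add_distrib, Wr_sum h hn hdn (fun y => A.eval y),
        Wr_odd h hn hdn (fun y => B.eval y), add_zero]
      exact h.mom A hAd
    rw [h1]
    have h2 : LY n A = (2 / 2 ^ n) * ∑ x : Fin n → Bool,
        if Even (wt x) then A.eval (yv n (wt x)) else 0 := rfl
    have h3 : Lf n P = (2 / 2 ^ n) * ∑ x : Fin n → Bool,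
        if Even (wt x) then P.eval (wt x : ℝ) else 0 := rfl
    rw [h2, h3]
    congr 1
    have h4 := even_odd_sum hn (fun y => B.eval y)
    rw [← add_zero (∑ x : Fin n → Bool, if Even (wt x) then A.eval (yv n (wt x)) else 0), ← h4,
      ← Finset.sum_add_distrib]
    refine Finset.sum_congr rfl fun x _ => ?_
    split_ifs
    · rw [hAB (wt x : ℝ)]
      simp only [yv]
    · simp

end Pool.Agent.Lib.MP_0430e4_lc.LPX
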