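import Pool.Agent.Lib.MP_0430e4_lc.LPX.BND
import Pool.Agent.Lib.MP_0430e4_lc.LPX.EXTR
import Pool.Agent.Lib.MP_0430e4_lc.LPX.FEASX
import Pool.Agent.Lib.MP_0430e4_lc.LPX.PARS
import Pool.Agent.Lib.MP_0430e4_lc.LPX.WTAIL
import Pool.Agent.Lib.MP_0430e4_lc.LPX.KRDEG
import Pool.Agent.Lib.MP_0430e4_lc.LPL.CUB2

/-!
# The lower bound for the linear program at finite length
-/

set_option autoImplicit false

namespace Pool.Agent.Lib.MP_0430e4_lc.LPX

open Finset Polynomial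
open Tensor (chi flp)
open Impr (wt lpBound)
open LPL (hat Ev NC Lf)

theorem choose_mono_half {n a b : ℕ} (hab : a ≤ b) (hb : 2 * b ≤ n) :
    n.choose a ≤ n.choose b := by
  induction b, hab using Nat.le_induction with
  | base => exact le_rfl
  | succ k hk ih =>
    exact (ih (by omega)).trans (Nat.choose_le_succ_of_lt_half_left (by omega))

/-- the bound for the levels at most `n / 2` -/
theorem level_bound {n d m k1 : ℕ} {Z : Finset ℝ} {w : ℝ → ℝ} (h : Extr n d (2 * m) Z w)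
    (hn : Even n) (hm : 1 ≤ m) (hd : 1 ≤ d) (hdn : 2 * d ≤ n) (hd4 : n ≤ 4 * d)
    (hD : ((n : ℝ) - 2 * d) ^ 2 ≤ 4 * n * (2 * m - 1)) (_hk1 : 2 * k1 ≤ n)
    (M : ℝ) (hM0 : 0 ≤ M)
    (hM1 : M ≤ (n.choose (2 * m) : ℝ) * (1 - ((n : ℝ) - 2 * d) ^ 2 / (n : ℝ) ^ 2) ^ (2 * m)
        * Real.exp (-((k1 : ℝ) ^ 2 / n + (k1 : ℝ) ^ 3 / (n : ℝ) ^ 2)))
    (hM2 : M ≤ Real.sqrt (n.choose k1 / (64 * ((n : ℝ) + 1) ^ 2)))
    (y : Fin n → Bool) (hy0 : wt y ≠ 0) (hy : 2 * wt y ≤ n) :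
    M * |hat (fun x => Wr n d w (wt x)) y| ≤ 1 := by
  have hn1 : 1 ≤ n := by omega
  have hn0 : (0 : ℝ) < n := by exact_mod_cast hn1
  by_cases hev : Even (wt y)
  swap
  · rw [hat_odd h hn hdn y hev, abs_zero, mul_zero]
    norm_num
  obtain ⟨j, hj⟩ := hev
  have hj2 : wt y = 2 * j := by omega
  have hj1 : 1 ≤ j := by omega
  by_cases hjm : j < 2 * m
  · -- vanishing moments
    have h1 := hat_even h hn hdn (j := j) y hj2
    have h2 : ∑ z ∈ Z, w z * (EO n j).1.eval z = LY n (EO n j).1 :=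
      h.mom _ (lt_of_le_of_lt (EO_deg n j).1 hjm)
    rw [h2, LY_EO hj1 (by omega)] at h1
    have h3 : (n.choose (2 * j) : ℝ) ≠ 0 := by
      have : 0 < n.choose (2 * j) := Nat.choose_pos (by omega)
      positivity
    rw [(mul_eq_zero.1 h1).resolve_left h3, abs_zero, mul_zero]
    norm_num
  by_cases hjk : wt y ≤ k1
  · -- the contour bound
    have h1 := hat_bound h hn hm hd hdn hj1 (by omega) y hj2
    have h2 : (2 * (j : ℝ)) ^ 2 / n + (2 * (j : ℝ)) ^ 3 / (n : ℝ) ^ 2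
        ≤ (k1 : ℝ) ^ 2 / n + (k1 : ℝ) ^ 3 / (n : ℝ) ^ 2 := by
      have h3 : 2 * (j : ℝ) ≤ k1 := by
        have : 2 * j ≤ k1 := by omega
        exact_mod_cast this
      gcongr
    calc M * |hat (fun x => Wr n d w (wt x)) y|
        ≤ ((n.choose (2 * m) : ℝ) * (1 - ((n : ℝ) - 2 * d) ^ 2 / (n : ℝ) ^ 2) ^ (2 * m)
          * Real.exp (-((k1 : ℝ) ^ 2 / n + (k1 : ℝ) ^ 3 / (n : ℝ) ^ 2)))
            * |hat (fun x => Wr n d w (wt x)) y| :=
          mul_le_mul_of_nonneg_right hM1 (abs_nonneg _)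
      _ = ((n.choose (2 * m) : ℝ) * (1 - ((n : ℝ) - 2 * d) ^ 2 / (n : ℝ) ^ 2) ^ (2 * m)
          * |hat (fun x => Wr n d w (wt x)) y|)
            * Real.exp (-((k1 : ℝ) ^ 2 / n + (k1 : ℝ) ^ 3 / (n : ℝ) ^ 2)) := by ring
      _ ≤ Real.exp ((2 * (j : ℝ)) ^ 2 / n + (2 * (j : ℝ)) ^ 3 / (n : ℝ) ^ 2)
            * Real.exp (-((k1 : ℝ) ^ 2 / n + (k1 : ℝ) ^ 3 / (n : ℝ) ^ 2)) :=
          mul_le_mul_of_nonneg_right h1 (Real.exp_pos _).le
      _ = Real.exp (((2 * (j : ℝ)) ^ 2 / n + (2 * (j : ℝ)) ^ 3 / (n : ℝ) ^ 2)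
            - ((k1 : ℝ) ^ 2 / n + (k1 : ℝ) ^ 3 / (n : ℝ) ^ 2)) := by
          rw [← Real.exp_add]
          ring_nf
      _ ≤ 1 := by
          rw [Real.exp_le_one_iff]
          linarith
  · -- Parseval
    push Not at hjk
    have h1 := hat_sq_le (fun a => Wr n d w a) y
    have h2 := Wr_sq h hn hn1 hm hdn hd4 hD
    have h3 : (n.choose k1 : ℝ) ≤ n.choose (wt y) := by
      have : n.choose k1 ≤ n.choose (wt y) :=
        choose_mono_half hjk.le (by omega)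
      exact_mod_cast this
    set x : ℝ := |hat (fun x => Wr n d w (wt x)) y| with hx
    have hx0 : 0 ≤ x := abs_nonneg _
    have hx2 : x ^ 2 = hat (fun x => Wr n d w (wt x)) y ^ 2 := by rw [hx, sq_abs]
    have h4 : (n.choose k1 : ℝ) * x ^ 2 ≤ 64 * ((n : ℝ) + 1) ^ 2 := by
      calc (n.choose k1 : ℝ) * x ^ 2 ≤ n.choose (wt y) * x ^ 2 :=
            mul_le_mul_of_nonneg_right h3 (sq_nonneg x)
        _ ≤ 2 ^ n * ∑ x : Fin n → Bool, Wr n d w (wt x) ^ 2 := by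
            rw [hx2]
            exact h1
        _ ≤ 2 ^ n * (64 * ((n : ℝ) + 1) ^ 2 / 2 ^ n) :=
            mul_le_mul_of_nonneg_left h2 (by positivity)
        _ = 64 * ((n : ℝ) + 1) ^ 2 := by
            rw [mul_div_cancel₀]
            positivity
    have h5 : (M * x) ^ 2 ≤ 1 := by
      have h6 : M ^ 2 ≤ n.choose k1 / (64 * ((n : ℝ) + 1) ^ 2) := by
        calc M ^ 2 ≤ (Real.sqrt (n.choose k1 / (64 * ((n : ℝ) + 1) ^ 2))) ^ 2 :=
              pow_le_pow_left₀ hM0 hM2 2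
          _ = _ := Real.sq_sqrt (by positivity)
      calc (M * x) ^ 2 = M ^ 2 * x ^ 2 := by ring
        _ ≤ n.choose k1 / (64 * ((n : ℝ) + 1) ^ 2) * x ^ 2 :=
            mul_le_mul_of_nonneg_right h6 (sq_nonneg x)
        _ = (n.choose k1 * x ^ 2) / (64 * ((n : ℝ) + 1) ^ 2) := by ring
        _ ≤ 1 := by
            rw [div_le_one (by positivity)]
            exact h4
    have h7 : 0 ≤ M * x := mul_nonneg hM0 hx0
    nlinarith

theorem lp_ge_main {n d T k m k1 : ℕ} {R : ℝ} (h : NC n d T k R) (hm : 1 ≤ m)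
    (hmT : 2 * m ≤ T) (hd4 : n ≤ 4 * d) (hD : ((n : ℝ) - 2 * d) ^ 2 ≤ 4 * n * (2 * m - 1))
    (hk1 : 2 * k1 ≤ n) :
    min ((n.choose (2 * m) : ℝ) * (1 - ((n : ℝ) - 2 * d) ^ 2 / (n : ℝ) ^ 2) ^ (2 * m)
        * Real.exp (-((k1 : ℝ) ^ 2 / n + (k1 : ℝ) ^ 3 / (n : ℝ) ^ 2)))
      (Real.sqrt (n.choose k1 / (64 * ((n : ℝ) + 1) ^ 2))) ≤ lpBound n d := by
  obtain ⟨Z, w, hE⟩ := exists_extr h hm hmT
  have hn : Even n := h.hn
  have hd : 1 ≤ d := h.hd1
  have hdn : 2 * d ≤ n := h.hdn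
  have hn1 : 1 ≤ n := by omega
  have hn0 : (0 : ℝ) < n := by exact_mod_cast hn1
  set M : ℝ := min ((n.choose (2 * m) : ℝ)
      * (1 - ((n : ℝ) - 2 * d) ^ 2 / (n : ℝ) ^ 2) ^ (2 * m)
        * Real.exp (-((k1 : ℝ) ^ 2 / n + (k1 : ℝ) ^ 3 / (n : ℝ) ^ 2)))
      (Real.sqrt (n.choose k1 / (64 * ((n : ℝ) + 1) ^ 2))) with hM
  have hApos : 0 ≤ (1 - ((n : ℝ) - 2 * d) ^ 2 / (n : ℝ) ^ 2) ^ (2 * m) := by
    apply pow_nonneg
    rw [sub_nonneg, div_le_one (by positivity)]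
    have h1 : (1 : ℝ) ≤ d := by exact_mod_cast hd
    have h2 : (2 : ℝ) * d ≤ n := by exact_mod_cast hdn
    nlinarith
  have hM0 : 0 ≤ M := le_min (by positivity) (Real.sqrt_nonneg _)
  have hsum : ∑ x : Fin n → Bool, Wr n d w (wt x) = 1 := by
    have h1 := Wr_sum hE hn hdn (fun _ => (1 : ℝ))
    simp only [mul_one] at h1
    rw [h1]
    have h2 := hE.mom 1 (by rw [natDegree_one]; omega)
    simp only [eval_one, mul_one] at h2
    rw [h2]
    exact LY_one hn1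
  apply lp_ge_of_hat (Wr n d w) M hM0 hd (Wr_nonneg hE) (Wr_low w) hsum
  intro y
  -- reduction to the lower half
  have key : ∀ y : Fin n → Bool, 2 * wt y ≤ n →
      -1 ≤ M * hat (fun x => Wr n d w (wt x)) y := by
    intro y hy
    by_cases hy0 : wt y = 0
    · have hy' : y = fun _ => false := by
        funext i
        unfold wt at hy0
        rw [Finset.card_eq_zero] at hy0
        by_contra hc
        simp only [Bool.not_eq_false] at hc
        have : i ∈ (univ.filter fun i => y i = true) := by simp [hc]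
        rw [hy0] at this
        exact absurd this (Finset.notMem_empty i)
      have h1 : hat (fun x => Wr n d w (wt x)) y = 1 := by
        rw [hy']
        unfold hat
        simp only [Tensor.chi_zero_right, mul_one]
        exact hsum
      rw [h1, mul_one]
      linarith
    · have h1 := level_bound hE hn hm hd hdn hd4 hD hk1 M hM0 (min_le_left _ _)
        (min_le_right _ _) y hy0 hy
      have h2 := neg_abs_le (hat (fun x => Wr n d w (wt x)) y)
      nlinarith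
  by_cases hy : 2 * wt y ≤ n
  · exact key y hy
  · push Not at hy
    have h1 := LPL.hat_compl (fun x => Wr n d w (wt x)) (fun x hx => Wr_even w (wt x) hx) y
    rw [← h1]
    apply key
    rw [LPL.wt_compl]
    have := LPL.wt_le y
    omega

end Pool.Agent.Lib.MP_0430e4_lc.LPX
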