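import Pool.Agent.Lib.MP_0430e4_lc.LPX.QUOT

/-!
# Error of the extremal quadrature
-/

set_option autoImplicit false

namespace Pool.Agent.Lib.MP_0430e4_lc.LPX

open Finset Polynomial
open Impr (wt)
open LPL (Ev)

private theorem NZ_eval_zero (Z : Finset ℝ) {z : ℝ} (hz : z ∈ Z) : (NZ Z).eval z = 0 := by
  unfold NZ
  rw [Polynomial.eval_prod]
  exact Finset.prod_eq_zero hz (by simp)

/-- `P = NZ Z * g + r`, `w(P) = w(r) = LY r = LY P - LY (NZ Z * g)` and `NZ Z ≥ 0` at all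
`yv n a`, `a` even, which lie in `[0, n^2]`. -/
theorem quad_error {n d t : ℕ} {Z : Finset ℝ} {w : ℝ → ℝ} (h : Extr n d t Z w) (ht : 1 ≤ t)
    (hd : 1 ≤ d) (hdn : 2 * d ≤ n) (P : ℝ[X]) :
    |∑ z ∈ Z, w z * P.eval z - LY n P|
      ≤ LY n (NZ Z) * (aev P ((n : ℝ) ^ 2) / ∏ z ∈ Z, ((n : ℝ) ^ 2 - z)) := by
  have hd' : (1 : ℝ) ≤ d := by exact_mod_cast hd
  have hdn' : 2 * (d : ℝ) ≤ n := by exact_mod_cast hdn
  have hZ : ∀ z ∈ Z, 0 ≤ z ∧ z < (n : ℝ) ^ 2 := by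
    intro z hz
    obtain ⟨a, ha, rfl⟩ := h.sub z hz
    unfold Ev at ha
    rw [Finset.mem_filter] at ha
    obtain ⟨-, -, h1, h2⟩ := ha
    have h1' : (d : ℝ) ≤ a := by exact_mod_cast h1
    have h2' : (a : ℝ) + d ≤ n := by exact_mod_cast h2
    unfold yv
    exact ⟨sq_nonneg _, by nlinarith⟩
  obtain ⟨g, r, hP, hr, hg⟩ := quot Z ((n : ℝ) ^ 2) (by rw [h.card]; exact ht) hZ P
  set B := aev P ((n : ℝ) ^ 2) / ∏ z ∈ Z, ((n : ℝ) ^ 2 - z) with hB
  have e1 : ∑ z ∈ Z, w z * P.eval z = LY n r := by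
    rw [← h.mom r (by rw [← h.card]; exact hr)]
    apply Finset.sum_congr rfl
    intro z hz
    rw [hP, Polynomial.eval_add, Polynomial.eval_mul, NZ_eval_zero Z hz, zero_mul, zero_add]
  have e2 : LY n P = LY n (NZ Z * g) + LY n r := by
    conv_lhs => rw [hP]
    rw [map_add]
  rw [e1, e2, show LY n r - (LY n (NZ Z * g) + LY n r) = - LY n (NZ Z * g) by ring, abs_neg]
  show |(2 / 2 ^ n) * ∑ x : Fin n → Bool,
      if Even (wt x) then (NZ Z * g).eval (yv n (wt x)) else 0|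
    ≤ ((2 / 2 ^ n) * ∑ x : Fin n → Bool, if Even (wt x) then (NZ Z).eval (yv n (wt x)) else 0) * B
  rw [abs_mul, abs_of_nonneg (by positivity : (0 : ℝ) ≤ 2 / 2 ^ n), mul_assoc]
  refine mul_le_mul_of_nonneg_left ?_ (by positivity)
  rw [Finset.sum_mul]
  refine (Finset.abs_sum_le_sum_abs _ _).trans (Finset.sum_le_sum fun x _ => ?_)
  split_ifs with hx
  · have hwn : wt x ≤ n := by
      unfold wt
      exact (Finset.card_le_univ _).trans (by simp)
    have hwn' : ((wt x : ℕ) : ℝ) ≤ n := by exact_mod_cast hwn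
    have hw0 : (0 : ℝ) ≤ (wt x : ℕ) := by positivity
    have hN := h.nonneg (wt x) hx hwn
    rw [Polynomial.eval_mul, abs_mul, abs_of_nonneg hN]
    refine mul_le_mul_of_nonneg_left (hg _ ?_ ?_) hN
    · unfold yv
      exact sq_nonneg _
    · unfold yv
      nlinarith
  · simp

end Pool.Agent.Lib.MP_0430e4_lc.LPX
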