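import Pool.Agent.Lib.MP_0430e4_lc.LPX.Defs

/-!
# Synthetic division with control of the absolute values
-/

set_option autoImplicit false

namespace Pool.Agent.Lib.MP_0430e4_lc.LPX

open Finset Filter Topology Polynomial
open Tensor (chi flp)
open Impr (wt lpBound)
open LPL (hat Ev NC Lf)

theorem aev_eq {f : ℝ[X]} {N : ℕ} (h : f.natDegree < N) (r : ℝ) :
    aev f r = ∑ i ∈ range N, |f.coeff i| * r ^ i := by
  unfold aev
  apply Finset.sum_subset
  · intro i hi
    rw [Finset.mem_range] at hi ⊢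
    omega
  · intro i _ hi
    rw [Finset.mem_range, not_lt] at hi
    rw [Polynomial.coeff_eq_zero_of_natDegree_lt (by omega), abs_zero, zero_mul]

theorem aev_nonneg (f : ℝ[X]) {r : ℝ} (hr : 0 ≤ r) : 0 ≤ aev f r :=
  Finset.sum_nonneg (fun i _ => mul_nonneg (abs_nonneg _) (pow_nonneg hr i))

theorem abs_eval_le_aev (g : ℝ[X]) {v r : ℝ} (h0 : 0 ≤ v) (h1 : v ≤ r) :
    |g.eval v| ≤ aev g r := by
  rw [Polynomial.eval_eq_sum_range]
  unfold aev
  refine (Finset.abs_sum_le_sum_abs _ _).trans (Finset.sum_le_sum fun i _ => ?_)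
  rw [abs_mul, abs_of_nonneg (pow_nonneg h0 i)]
  exact mul_le_mul_of_nonneg_left (pow_le_pow_left₀ h0 h1 i) (abs_nonneg _)

theorem aev_divByMonic (f : ℝ[X]) {z r : ℝ} (hz : 0 ≤ z) (hr : z < r) :
    aev (f /ₘ (X - C z)) r ≤ aev f r / (r - z) := by
  have hrz : 0 < r - z := sub_pos.2 hr
  have hr0 : 0 ≤ r := hz.trans hr.le
  rw [le_div_iff₀ hrz]
  have hdeg : (f /ₘ (X - C z)).natDegree < f.natDegree + 1 := by
    rw [Polynomial.natDegree_divByMonic _ (monic_X_sub_C z)]
    omega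
  rw [aev_eq hdeg]
  have h1 : ∀ i ∈ range (f.natDegree + 1), |(f /ₘ (X - C z)).coeff i| * r ^ i
      ≤ ∑ j ∈ range (f.natDegree + 1),
        (if i < j then |f.coeff j| * (z ^ (j - 1 - i) * r ^ i) else 0) := by
    intro i _
    rw [Polynomial.coeff_divByMonic_X_sub_C]
    have h2 : |∑ j ∈ Icc (i + 1) f.natDegree, z ^ (j - (i + 1)) * f.coeff j|
        ≤ ∑ j ∈ Icc (i + 1) f.natDegree, z ^ (j - (i + 1)) * |f.coeff j| := by
      refine (Finset.abs_sum_le_sum_abs _ _).trans (Finset.sum_le_sum fun j _ => ?_)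
      rw [abs_mul, abs_of_nonneg (pow_nonneg hz _)]
    refine (mul_le_mul_of_nonneg_right h2 (pow_nonneg hr0 i)).trans ?_
    rw [Finset.sum_mul, ← Finset.sum_filter]
    have h3 : (range (f.natDegree + 1)).filter (fun j => i < j) = Icc (i + 1) f.natDegree := by
      ext j
      simp only [Finset.mem_filter, Finset.mem_range, Finset.mem_Icc]
      omega
    rw [h3]
    apply le_of_eq
    apply Finset.sum_congr rfl
    intro j _
    have : j - (i + 1) = j - 1 - i := by omega
    rw [this]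
    ring
  have h4 := Finset.sum_le_sum h1
  rw [Finset.sum_comm] at h4
  refine (mul_le_mul_of_nonneg_right h4 hrz.le).trans ?_
  rw [Finset.sum_mul]
  unfold aev
  apply Finset.sum_le_sum
  intro j hj
  rw [← Finset.sum_filter]
  have h5 : (range (f.natDegree + 1)).filter (fun i => i < j) = range j := by
    ext i
    simp only [Finset.mem_filter, Finset.mem_range] at hj ⊢
    omega
  rw [h5, ← Finset.mul_sum, mul_assoc]
  apply mul_le_mul_of_nonneg_left _ (abs_nonneg _)
  have h6 : (∑ i ∈ range j, r ^ i * z ^ (j - 1 - i)) * (r - z) = r ^ j - z ^ j :=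
    geom_sum₂_mul r z j
  have h7 : ∑ i ∈ range j, z ^ (j - 1 - i) * r ^ i = ∑ i ∈ range j, r ^ i * z ^ (j - 1 - i) :=
    Finset.sum_congr rfl (fun i _ => mul_comm _ _)
  rw [h7, h6]
  have := pow_nonneg hz j
  linarith

private theorem quot_aux (Z : Finset ℝ) (ρ : ℝ) (hZ : ∀ z ∈ Z, 0 ≤ z ∧ z < ρ) (f : ℝ[X]) :
    ∃ g r : ℝ[X], f = NZ Z * g + r ∧ (r = 0 ∨ r.natDegree < Z.card) ∧
      aev g ρ ≤ aev f ρ / ∏ z ∈ Z, (ρ - z) := by
  classical
  induction Z using Finset.induction_on with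
  | empty =>
    exact ⟨f, 0, by simp [NZ], Or.inl rfl, by simp⟩
  | insert z Z hzZ ih =>
    obtain ⟨g, r, h1, h2, h3⟩ := ih (fun x hx => hZ x (Finset.mem_insert_of_mem hx))
    obtain ⟨hz0, hz1⟩ := hZ z (Finset.mem_insert_self z Z)
    have hNZ : NZ (insert z Z) = (X - C z) * NZ Z := by
      unfold NZ
      rw [Finset.prod_insert hzZ]
    have hdegNZ : (NZ Z).natDegree = Z.card := by
      unfold NZ
      rw [Polynomial.natDegree_prod_of_monic _ _ (fun x _ => monic_X_sub_C x)]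
      simp
    refine ⟨g /ₘ (X - C z), NZ Z * C (g.eval z) + r, ?_, Or.inr ?_, ?_⟩
    · have h4 : (X - C z) * (g /ₘ (X - C z)) + C (g.eval z) = g := by
        have := Polynomial.modByMonic_add_div g (X - C z)
        rw [Polynomial.modByMonic_X_sub_C_eq_C_eval] at this
        rw [add_comm]
        exact this
      rw [hNZ]
      calc f = NZ Z * g + r := h1
        _ = NZ Z * ((X - C z) * (g /ₘ (X - C z)) + C (g.eval z)) + r := by rw [h4]
        _ = _ := by ring
    · rw [Finset.card_insert_of_notMem hzZ]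
      have h5 : (NZ Z * C (g.eval z)).natDegree ≤ Z.card := by
        refine (Polynomial.natDegree_mul_le).trans ?_
        rw [hdegNZ, Polynomial.natDegree_C]
        omega
      have h6 : r.natDegree ≤ Z.card := by
        rcases h2 with h | h
        · rw [h]; simp
        · exact h.le
      have := Polynomial.natDegree_add_le (NZ Z * C (g.eval z)) r
      omega
    · have hpos : 0 < ∏ x ∈ Z, (ρ - x) := by
        apply Finset.prod_pos
        intro x hx
        exact sub_pos.2 (hZ x (Finset.mem_insert_of_mem hx)).2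
      rw [Finset.prod_insert hzZ]
      refine (aev_divByMonic g hz0 hz1).trans ?_
      rw [mul_comm, ← div_div]
      exact div_le_div_of_nonneg_right h3 (sub_pos.2 hz1).le

/-- Synthetic division by `NZ Z`. -/
theorem quot (Z : Finset ℝ) (ρ : ℝ) (hc : 1 ≤ Z.card) (hZ : ∀ z ∈ Z, 0 ≤ z ∧ z < ρ)
    (f : ℝ[X]) :
    ∃ g r : ℝ[X], f = NZ Z * g + r ∧ r.natDegree < Z.card ∧
      ∀ v, 0 ≤ v → v ≤ ρ → |g.eval v| ≤ aev f ρ / ∏ z ∈ Z, (ρ - z) := by
  obtain ⟨g, r, h1, h2, h3⟩ := quot_aux Z ρ hZ f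
  refine ⟨g, r, h1, ?_, fun v h0 hv => (abs_eval_le_aev g h0 hv).trans h3⟩
  rcases h2 with h | h
  · rw [h, Polynomial.natDegree_zero]
    omega
  · exact h

end Pool.Agent.Lib.MP_0430e4_lc.LPX
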